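import Pool.Agent.MP_181731_al.Mod

namespace Pool.Agent.MP_181731_al

open Function Submodule

universe u v w

variable {R : Type u} [Ring R]
variable {M : Type*} [AddCommGroup M] [Module R M] {M' : Type*} [AddCommGroup M'] [Module R M']

theorem exists_equiv_iSup {ι : Type*} [DecidableEq ι] {p : ι → Submodule R M} (h : iSupIndep p) :
    ∃ e : (Π₀ i, p i) ≃ₗ[R] (⨆ i, p i : Submodule R M),
      ∀ d, (e d : M) = DFinsupp.lsum ℕ (fun i => (p i).subtype) d :=
  ⟨(LinearEquiv.ofInjective _ h.dfinsupp_lsum_injective).trans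
    (LinearEquiv.ofEq _ _ (iSup_eq_range_dfinsupp_lsum p).symm), fun _ => rfl⟩

theorem glue {ι : Type*} {p : ι → Submodule R M} (h : iSupIndep p) (f : ∀ i, p i →ₗ[R] M') :
    ∃ F : (⨆ i, p i : Submodule R M) →ₗ[R] M',
      ∀ i (x : p i), F ⟨x, le_iSup p i x.2⟩ = f i x := by
  classical
  obtain ⟨e, he⟩ := exists_equiv_iSup h
  refine ⟨DFinsupp.lsum ℕ f ∘ₗ e.symm.toLinearMap, fun i x => ?_⟩
  have : e.symm ⟨x, le_iSup p i x.2⟩ = DFinsupp.single i x := by
    rw [LinearEquiv.symm_apply_eq]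
    apply Subtype.ext
    rw [he]
    simp
  simp [this]

theorem glue_top {ι : Type*} {p : ι → Submodule R M} (h : iSupIndep p) (ht : ⨆ i, p i = ⊤)
    (f : ∀ i, p i →ₗ[R] M') : ∃ F : M →ₗ[R] M', ∀ i (x : p i), F x = f i x := by
  obtain ⟨F, hF⟩ := glue h f
  exact ⟨F ∘ₗ LinearMap.id.codRestrict _ fun x => ht ▸ mem_top, fun i x => hF i x⟩

theorem ext_of_iSup {ι : Type*} {p : ι → Submodule R M} (ht : ⨆ i, p i = ⊤) {f g : M →ₗ[R] M'}
    (h : ∀ i, ∀ x ∈ p i, f x = g x) : f = g := by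
  rw [← sub_eq_zero, ← LinearMap.ker_eq_top, eq_top_iff, ← ht]
  exact iSup_le fun i x hx => by simpa [sub_eq_zero] using h i x hx

theorem projective_iSup {ι : Type*} {p : ι → Submodule R M} (h : iSupIndep p)
    (hp : ∀ i, Module.Projective R (p i)) : Module.Projective R (⨆ i, p i : Submodule R M) := by
  classical
  obtain ⟨e, -⟩ := exists_equiv_iSup h
  exact Module.Projective.of_equiv' e

theorem exists_max_indep (C : Submodule R M → Prop) : ∃ s : Set (Submodule R M),
    sSupIndep s ∧ (∀ X ∈ s, C X) ∧ ∀ X, C X → Disjoint X (sSup s) → X = ⊥ := by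
  obtain ⟨s, hs⟩ := zorn_subset {s : Set (Submodule R M) | sSupIndep s ∧ ∀ X ∈ s, C X}
    fun c hc1 hc2 => ⟨⋃₀ c, ⟨iSupIndep_sUnion_of_directed hc2.directedOn fun s hs => (hc1 hs).1,
      fun a ⟨s, sc, as⟩ => (hc1 sc).2 a as⟩, fun _ => Set.subset_sUnion_of_mem⟩
  refine ⟨s, hs.prop.1, hs.prop.2, fun a ha hdis => ?_⟩
  have hins : insert a s ⊆ s := by
    refine hs.le_of_ge (y := insert a s) ⟨fun x hx => ?_, ?_⟩ (Set.subset_insert a s)
    · obtain rfl | xa := eq_or_ne x a
      · exact hdis.mono_right (sSup_le fun y hy => le_sSup ((Set.mem_insert_iff.1 hy.1).resolve_left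
          fun h => hy.2 h))
      · have hxs : x ∈ s := (Set.mem_insert_iff.1 hx).resolve_left xa
        rw [Set.insert_sdiff_of_notMem _ (by simpa using xa.symm), sSup_insert, sup_comm]
        apply (hs.prop.1 hxs).disjoint_sup_right_of_disjoint_sup_left (hdis.mono_right _).symm
        rw [← sSup_insert, Set.insert_sdiff_singleton, Set.insert_eq_of_mem hxs]
    · rintro x (rfl | hx)
      · exact ha
      · exact hs.prop.2 x hx
  exact hdis.eq_bot_of_le (le_sSup (hins (Set.mem_insert a s)))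

theorem exists_hom_of_projective [Module.Projective R M] {x : M} (hx : x ≠ 0) :
    ∃ f : M →ₗ[R] R, f x ≠ 0 := by
  obtain ⟨s, hs⟩ := Module.projective_def.1 (inferInstance : Module.Projective R M)
  have : s x ≠ 0 := fun h => hx (by rw [← hs x, h, map_zero])
  obtain ⟨i, hi⟩ := DFunLike.ne_iff.1 this
  exact ⟨Finsupp.lapply i ∘ₗ s, hi⟩

variable [G : Good.{u, w} R]
include G

theorem tf_of_projective [Module.Projective R M] : TF R M := by
  intro x I hI hx
  by_contra h
  obtain ⟨f, hf⟩ := exists_hom_of_projective (R := R) h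
  exact hf (G.tf _ I hI fun a ha => by rw [← map_smul, hx a ha, map_zero])

theorem exists_hull (B : Type v) : ∃ (D : Type (max v w)) (_ : AddCommGroup D) (_ : Module R D)
    (j : (B →₀ R) →ₗ[R] D), Injective j ∧ Dv (⊤ : Submodule R D) ∧ TF R D := by
  obtain ⟨Q, _, _, j, hj, hdv, htf, -⟩ := G.hull
  refine ⟨B →₀ Q, inferInstance, inferInstance, Finsupp.mapRange.linearMap j,
    Finsupp.mapRange_injective _ (map_zero j) hj, ?_, fun x I hI hx => ?_⟩
  · rw [← Finsupp.iSup_lsingle_range]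
    exact Dv.iSup fun a => hdv.range _
  · ext b
    exact htf _ I hI fun a ha => DFunLike.congr_fun (hx a ha) b

/-- submodules of projective modules are projective -/
theorem projective_of_injective [Module.Projective R M'] (f : M →ₗ[R] M') (hf : Injective f) :
    Module.Projective R M := by
  refine Module.Projective.of_lifting_property'' fun p hp => ?_
  obtain ⟨D, _, _, j, hj, hdv, -⟩ := exists_hull (R := R) M
  let N := (LinearMap.ker p).map j
  obtain ⟨i, hi⟩ : ∃ i : M →ₗ[R] D ⧸ N, ∀ y, i (p y) = N.mkQ (j y) :=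
    ⟨(LinearMap.ker p).liftQ (N.mkQ ∘ₗ j) (fun y hy => (Quotient.mk_eq_zero N).2 ⟨y, hy, rfl⟩) ∘ₗ
      (p.quotKerEquivOfSurjective hp).symm.toLinearMap, fun y => by simp⟩
  have hdv' : Dv (⊤ : Submodule R (D ⧸ N)) := by
    rw [← range_mkQ]; exact hdv.range _
  obtain ⟨k, -, hk⟩ := hdv'.ext f hf i fun _ => mem_top
  obtain ⟨t, ht⟩ := Module.projective_lifting_property N.mkQ k (mkQ_surjective N)
  have key : ∀ x, ∃ y, j y = t (f x) ∧ p y = x := by
    intro x
    obtain ⟨y, rfl⟩ := hp x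
    have h1 : N.mkQ (t (f (p y))) = N.mkQ (j y) := by
      rw [← LinearMap.comp_apply, ht, hk, hi]
    obtain ⟨z, hz, hz'⟩ := (Submodule.Quotient.eq N).1 h1
    refine ⟨y + z, by rw [map_add, hz']; abel, ?_⟩
    rw [map_add, LinearMap.mem_ker.1 hz, add_zero]
  refine ⟨(LinearEquiv.ofInjective j hj).symm.toLinearMap ∘ₗ
    (t ∘ₗ f).codRestrict _ fun x => (key x).imp fun _ h => h.1, ?_⟩
  ext x
  obtain ⟨y, hy, rfl⟩ := key x
  simp only [LinearMap.comp_apply, LinearMap.id_apply, LinearEquiv.coe_coe]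
  congr 1
  rw [LinearEquiv.symm_apply_eq]
  exact Subtype.ext hy.symm

theorem exists_hom_of_tf [Module.Finite R M] (h : TF R M) {x : M} (hx : x ≠ 0) :
    ∃ f : M →ₗ[R] R, f x ≠ 0 := by
  classical
  obtain ⟨Q, _, _, j, hj, hdv, -, hσ⟩ := G.hull
  let t := LinearMap.toSpanSingleton R M x
  obtain ⟨r, hr, hr'⟩ := G.ann (LinearMap.ker t) fun I hI hle => hx (h x I hI fun a ha => hle ha)
  let g : (R ⧸ LinearMap.ker t) →ₗ[R] Q :=
    (LinearMap.ker t).liftQ (j ∘ₗ LinearMap.toSpanSingleton R R r) fun a ha => by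
      simp [hr' a ha]
  obtain ⟨k, -, hk⟩ := hdv.ext ((LinearMap.ker t).liftQ t le_rfl)
    (LinearMap.ker_eq_bot.1 (ker_liftQ_eq_bot _ _ _ le_rfl)) g fun _ => mem_top
  have hkx : k x = j r := by simpa [g, t] using hk (Submodule.Quotient.mk 1)
  obtain ⟨S, hS⟩ := Module.Finite.fg_top (R := R) (M := M)
  obtain ⟨σ, hσ1, hσ2⟩ := hσ (S.image k)
  have hall : ∀ m, (σ ∘ₗ k) m ∈ LinearMap.range j := by
    have : (⊤ : Submodule R M) ≤ (LinearMap.range j).comap (σ ∘ₗ k) := by
      rw [← hS, span_le]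
      exact fun m hm => hσ2 _ (Finset.mem_image_of_mem k hm)
    exact fun m => this mem_top
  refine ⟨(LinearEquiv.ofInjective j hj).symm.toLinearMap ∘ₗ (σ ∘ₗ k).codRestrict _ hall,
    fun h0 => hr (hj (hσ1 ?_))⟩
  simp only [LinearMap.comp_apply, LinearEquiv.coe_coe, LinearEquiv.map_eq_zero_iff] at h0
  have := congrArg Subtype.val h0
  simp only [LinearMap.codRestrict_apply, LinearMap.comp_apply, hkx, ZeroMemClass.coe_zero] at this
  rw [this, map_zero, map_zero]

theorem fin_emb {X : Submodule R M} (hX : X.FG) (hcl : ∀ x, x ∈ cl X) :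
    ∃ (t : ℕ) (F : M →ₗ[R] (Fin t → R)), ∀ x, F x = 0 → ∀ f : M →ₗ[R] R, f x = 0 := by
  have := G.noethR
  obtain ⟨m, g, hg⟩ := fg_iff_exists_fin_generating_family.1 hX
  let ev : (M →ₗ[R] R) →ₗ[Rᵐᵒᵖ] (Fin m → R) :=
    { toFun := fun f i => f (g i), map_add' := fun _ _ => rfl, map_smul' := fun _ _ => rfl }
  have hev : Injective ev := by
    rw [injective_iff_map_eq_zero]
    intro f hf
    have h1 : X ≤ LinearMap.ker f := by
      rw [← hg, span_le]
      rintro _ ⟨i, rfl⟩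
      exact congrFun hf i
    ext x
    obtain ⟨I, hI, hx⟩ := hcl x
    have := hI.1
    exact G.tf _ I hI fun a ha => by rw [← map_smul]; exact h1 (mem_col.1 hx a ha)
  have : IsNoetherian Rᵐᵒᵖ (M →ₗ[R] R) := isNoetherian_of_injective ev hev
  obtain ⟨t, φ, hφ⟩ := fg_iff_exists_fin_generating_family.1
    (IsNoetherian.noetherian (⊤ : Submodule Rᵐᵒᵖ (M →ₗ[R] R)))
  refine ⟨t, LinearMap.pi φ, fun x hx f => ?_⟩
  have hf : f ∈ span Rᵐᵒᵖ (Set.range φ) := hφ ▸ mem_top
  induction hf using span_induction with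
  | mem f hf => obtain ⟨i, rfl⟩ := hf; exact congrFun hx i
  | zero => rfl
  | add f g _ _ hf hg => rw [LinearMap.add_apply, hf, hg, add_zero]
  | smul r f _ hf => rw [LinearMap.smul_apply, hf, smul_zero]

theorem projective_of_tf [Module.Finite R M] (h : TF R M) : Module.Projective R M := by
  obtain ⟨t, F, hF⟩ := fin_emb (Module.Finite.fg_top (R := R) (M := M)) fun _ => le_cl mem_top
  refine projective_of_injective F ((injective_iff_map_eq_zero F).2 fun x hx => ?_)
  by_contra hne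
  obtain ⟨f, hf⟩ := exists_hom_of_tf h hne
  exact hf (hF x hx f)

theorem IsMx.eq_bot_of_le_smul {P : Ideal R} (hP : IsMx P) {X Y : Submodule R M}
    [Module.Projective R Y] (hXY : X ≤ Y) (h : X ≤ P • X) : X = ⊥ := by
  have := hP.1.1
  rw [eq_bot_iff]
  intro x hx
  by_contra hne
  obtain ⟨f, hf⟩ := exists_hom_of_projective (R := R) (x := (⟨x, hXY hx⟩ : Y))
    fun h0 => hne (congrArg Subtype.val h0)
  let g : X →ₗ[R] R := f ∘ₗ inclusion hXY
  have h1 : ∀ n, LinearMap.range g ≤ P ^ n := fun n => by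
    have h2 := map_mono (f := g) (top_le_smul_iff.2 (le_pow_smul h n))
    rw [map_smul'', Submodule.map_top] at h2
    exact h2.trans Ideal.mul_le_left
  have h3 : (⨅ n, P ^ n) = ⊥ := hP.krull inferInstance fun n => iInf_le _ n
  have : g ⟨x, hx⟩ ∈ ⨅ n, P ^ n := (le_iInf h1) ⟨_, rfl⟩
  rw [h3] at this
  exact hf this

theorem IsMx.not_le_smul {P : Ideal R} (hP : IsMx P) [Module.Projective R M] [Nontrivial M] :
    ¬ (⊤ : Submodule R M) ≤ P • ⊤ := fun h => by
  have : Module.Projective R (⊤ : Submodule R M) := Module.Projective.of_equiv' topEquiv.symm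
  exact top_ne_bot (hP.eq_bot_of_le_smul le_rfl h)

theorem IsMx.ss_quot {P : Ideal R} (hP : IsMx P) : IsSemisimpleModule R (R ⧸ P) := by
  have := G.artin P hP.1
  have := G.noeth
  have := hP.1.1
  rw [IsArtinian.isSemisimpleModule_iff_jacobson]
  let J : Ideal R := (Module.jacobson R (R ⧸ P)).comap P.mkQ
  have hJ : J.IsTwoSided := ⟨fun {a} b ha => by
    let ρ : (R ⧸ P) →ₗ[R] R ⧸ P := mapQ P P (LinearMap.toSpanSingleton R R b)
      fun x hx => P.mul_mem_right b hx
    exact Module.map_jacobson_le ρ ⟨P.mkQ a, ha, rfl⟩⟩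
  have hPJ : P ≤ J := fun x hx => by
    simp only [J, mem_comap, mkQ_apply, (Quotient.mk_eq_zero P).2 hx, zero_mem]
  have : Nontrivial (R ⧸ P) := Submodule.Quotient.nontrivial_iff.2 hP.2.1
  have hJP : J = P := by
    by_contra hne
    have h1 := hP.2.2 J hJ (lt_of_le_of_ne hPJ (Ne.symm hne))
    refine (Module.jacobson_lt_top R (R ⧸ P)).ne (eq_top_iff.2 fun y _ => ?_)
    obtain ⟨y, rfl⟩ := mkQ_surjective P y
    exact (h1 ▸ mem_top : y ∈ J)
  rw [eq_bot_iff]
  intro y hy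
  obtain ⟨y, rfl⟩ := mkQ_surjective P y
  exact (Quotient.mk_eq_zero P).2 (hJP ▸ (hy : y ∈ J))

theorem IsMx.ss {P : Ideal R} (hP : IsMx P) (h : ∀ a ∈ P, ∀ x : M, a • x = 0) :
    IsSemisimpleModule R M := by
  have := hP.ss_quot
  refine isSemisimpleModule_of_isSemisimpleModule_submodule'
    (p := fun x : M => LinearMap.range (P.liftQ (LinearMap.toSpanSingleton R M x)
      fun a ha => h a ha x)) (fun x => IsSemisimpleModule.range _) ?_
  rw [eq_top_iff]
  intro x _
  exact mem_iSup_of_mem x ⟨Submodule.Quotient.mk 1, by simp⟩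

theorem IsMx.ss_sub {P : Ideal R} (hP : IsMx P) {X : Submodule R M} (h : X ≤ col P ⊥) :
    IsSemisimpleModule R X :=
  have := hP.1.1
  hP.ss fun a ha x => Subtype.ext (mem_col.1 (h x.2) a ha)

theorem IsMx.sSup_atoms {P : Ideal R} (hP : IsMx P) {X : Submodule R M} (h : X ≤ col P ⊥) :
    sSup {a | a ≤ X ∧ IsAtom a} = X := by
  have := hP.ss_sub h
  refine le_antisymm (sSup_le fun a ha => ha.1) ?_
  have h1 : X = (sSup {m : Submodule R X | IsSimpleModule R m}).map X.subtype := by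
    rw [IsSemisimpleModule.sSup_simples_eq_top, map_subtype_top]
  refine h1.le.trans ?_
  rw [sSup_eq_iSup, Submodule.map_iSup]
  refine iSup_le fun m => ?_
  rw [Submodule.map_iSup]
  refine iSup_le fun hm => le_sSup ⟨map_subtype_le _ _, ?_⟩
  have : IsSimpleModule R m := hm
  exact isSimpleModule_iff_isAtom.1
    (IsSimpleModule.congr (equivMapOfInjective _ X.injective_subtype m).symm)

theorem IsMx.exists_atom {P : Ideal R} (hP : IsMx P) {X X' : Submodule R M} (h : X ≤ col P ⊥)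
    (h' : ¬ X ≤ X') : ∃ S, IsAtom S ∧ S ≤ X ∧ Disjoint S X' := by
  rw [← hP.sSup_atoms h, sSup_le_iff] at h'
  push Not at h'
  obtain ⟨S, hS, hS'⟩ := h'
  exact ⟨S, hS.2, hS.1, hS.2.not_le_iff_disjoint.1 hS'⟩

theorem IsMx.exists_compl {P : Ideal R} (hP : IsMx P) {b c : Submodule R M} (hbc : b ≤ c)
    (h : c ≤ col P ⊥) : ∃ b', Disjoint b b' ∧ b ⊔ b' = c := by
  obtain ⟨s, -, h1, h2, -⟩ := exists_sSupIndep_disjoint_sSup_atoms b c hbc (hP.sSup_atoms h)
  exact ⟨_, h1, h2⟩

/-- there is a nonzero homomorphism between any two nonzero modules killed by `P` -/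
theorem IsMx.exists_hom {P : Ideal R} (hP : IsMx P) (hA : ¬ (⊤ : Submodule R M) ≤ P • ⊤)
    {b : M'} (hb : b ≠ 0) (hPb : b ∈ col P (⊥ : Submodule R M')) :
    ∃ f : M →ₗ[R] M', f ≠ 0 ∧ ∀ x, f x ∈ span R {b} := by
  have := hP.1.1
  let N : Submodule R M := P • ⊤
  have hkill : ∀ a ∈ P, ∀ x : M ⧸ N, a • x = 0 := fun a ha x => by
    obtain ⟨x, rfl⟩ := mkQ_surjective N x
    rw [← map_smul]
    exact (Quotient.mk_eq_zero N).2 (smul_mem_smul ha mem_top)
  have := hP.ss hkill
  have := hP.ss_quot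
  have : Nontrivial (M ⧸ N) := Submodule.Quotient.nontrivial_iff.2 fun h => hA h.ge
  obtain ⟨S, hS⟩ := IsSemisimpleModule.exists_simple_submodule R (M ⧸ N)
  obtain ⟨S', hSS'⟩ := exists_isCompl S
  have := IsSimpleModule.nontrivial R S
  obtain ⟨s, hs⟩ := exists_ne (0 : S)
  let t : (R ⧸ P) →ₗ[R] S := P.liftQ (LinearMap.toSpanSingleton R S s)
    fun a ha => Subtype.ext (hkill a ha s)
  have ht : Surjective t := fun y => by
    obtain ⟨r, hr⟩ := IsSimpleModule.toSpanSingleton_surjective R hs y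
    exact ⟨Submodule.Quotient.mk r, hr⟩
  obtain ⟨σ, hσ⟩ := IsSemisimpleModule.lifting_property t ht (LinearMap.id (R := R) (M := S))
  obtain ⟨l, hl⟩ := Submodule.Quotient.mk_surjective P (σ s)
  have hlP : l ∉ P := fun h => hs (by
    rw [← LinearMap.id_apply (R := R) s, ← hσ, LinearMap.comp_apply, ← hl,
      (Quotient.mk_eq_zero P).2 h, map_zero])
  obtain ⟨r, hr⟩ : ∃ r : R, l • r • b ≠ 0 := by
    by_contra hn
    push Not at hn
    let J : Ideal R :=
      { carrier := {a | ∀ r : R, a • r • b = 0}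
        add_mem' := fun hx hy r => by rw [add_smul, hx r, hy r, add_zero]
        zero_mem' := fun r => zero_smul _ _
        smul_mem' := fun c a ha r => by rw [smul_eq_mul, mul_smul, ha r, smul_zero] }
    have hJ : J.IsTwoSided := ⟨fun {a} c ha r => by rw [mul_smul, ← mul_smul c]; exact ha _⟩
    have hPJ : P ≤ J := fun a ha r => hPb a ha r
    have h1 := hP.2.2 J hJ (lt_of_le_of_ne hPJ fun h => hlP (h ▸ (hn : l ∈ J)))
    exact hb (by simpa using (h1 ▸ mem_top : (1 : R) ∈ J) 1)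
  let τ : (R ⧸ P) →ₗ[R] M' := P.liftQ (LinearMap.toSpanSingleton R M' (r • b))
    fun a ha => hPb a ha r
  refine ⟨τ ∘ₗ σ ∘ₗ S.projectionOnto S' hSS' ∘ₗ N.mkQ, fun h0 => hr ?_, fun x => ?_⟩
  · obtain ⟨m, hm⟩ := mkQ_surjective N s
    have := DFunLike.congr_fun h0 m
    have h2 : S.projectionOnto S' hSS' s = s := projectionOnto_apply_left hSS' s
    simp only [LinearMap.comp_apply, hm, h2, ← hl] at this
    exact this
  · simp only [LinearMap.comp_apply]
    obtain ⟨y, hy⟩ := Submodule.Quotient.mk_surjective P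
      (σ (S.projectionOnto S' hSS' (N.mkQ x)))
    rw [← hy]
    exact Submodule.smul_mem _ y (Submodule.smul_mem _ r (mem_span_singleton_self b))

end Pool.Agent.MP_181731_al
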