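import Pool.Agent.MP_181731_al.Defs
import Pool.Agent.MP_181731_al.Proj

namespace Pool.Agent.MP_181731_al

open Function Submodule

universe u v w

variable {R : Type u} [Ring R]
variable {M : Type*} [AddCommGroup M] [Module R M] {C : Type*} [AddCommGroup C] [Module R C]

theorem AutLiftable.lift (h : AutLiftable R M) (p : M →ₗ[R] C) (hp : Surjective p)
    (e : C ≃ₗ[R] C) : ∃ f : M →ₗ[R] M, ∀ x, p (f x) = e (p x) := by
  let k := p.quotKerEquivOfSurjective hp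
  have hk : ∀ x, k (Submodule.Quotient.mk x) = p x := fun x => rfl
  obtain ⟨f, hf⟩ := h (LinearMap.ker p) (k.trans (e.trans k.symm))
  refine ⟨f, fun x => ?_⟩
  have := congrArg k (DFunLike.congr_fun hf x)
  simpa [hk] using this

theorem EndLiftable.lift (h : EndLiftable R M) (p : M →ₗ[R] C) (hp : Surjective p)
    (e : C →ₗ[R] C) : ∃ f : M →ₗ[R] M, ∀ x, p (f x) = e (p x) := by
  let k := p.quotKerEquivOfSurjective hp
  have hk : ∀ x, k (Submodule.Quotient.mk x) = p x := fun x => rfl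
  obtain ⟨f, hf⟩ := h (LinearMap.ker p) (k.symm.toLinearMap ∘ₗ e ∘ₗ k.toLinearMap)
  refine ⟨f, fun x => ?_⟩
  have := congrArg k (DFunLike.congr_fun hf x)
  simpa [hk] using this

theorem AutLiftable.lift_of_bij (h : AutLiftable R M) (p : M →ₗ[R] C) (hp : Surjective p)
    {e : C →ₗ[R] C} (he : Bijective e) : ∃ f : M →ₗ[R] M, ∀ x, p (f x) = e (p x) :=
  h.lift p hp (LinearEquiv.ofBijective e he)

theorem AutLiftable.lift_of_bij_sub (h : AutLiftable R M) (p : M →ₗ[R] C) (hp : Surjective p)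
    {e : C →ₗ[R] C} (he : Bijective (LinearMap.id - e : C →ₗ[R] C)) :
    ∃ f : M →ₗ[R] M, ∀ x, p (f x) = e (p x) := by
  obtain ⟨f, hf⟩ := h.lift_of_bij p hp he
  exact ⟨LinearMap.id - f, fun x => by simp [hf]⟩

theorem AutLiftable.of_retract {X : Type*} [AddCommGroup X] [Module R X] (h : AutLiftable R M)
    (i : X →ₗ[R] M) (r : M →ₗ[R] X) (hri : ∀ x, r (i x) = x) : AutLiftable R X := by
  intro N e
  let p : M →ₗ[R] (X ⧸ N) × (M ⧸ LinearMap.range i) :=
    (N.mkQ ∘ₗ r).prod (LinearMap.range i).mkQ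
  have hp : Surjective p := by
    rintro ⟨x, m⟩
    obtain ⟨x, rfl⟩ := mkQ_surjective N x
    obtain ⟨m, rfl⟩ := mkQ_surjective _ m
    refine ⟨m - i (r m) + i x, Prod.ext (by simp [p, hri]) ?_⟩
    exact (Submodule.Quotient.eq _).2 ⟨x - r m, by rw [map_sub]; abel⟩
  obtain ⟨f, hf⟩ := h.lift p hp (e.prodCongr (LinearEquiv.refl R _))
  refine ⟨r ∘ₗ f ∘ₗ i, LinearMap.ext fun x => ?_⟩
  simpa [p, hri] using congrArg Prod.fst (hf (i x))

theorem AutLiftable.of_isCompl (h : AutLiftable R M) {X Y : Submodule R M} (hXY : IsCompl X Y) :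
    AutLiftable R X :=
  h.of_retract X.subtype (X.projectionOnto Y hXY) (projectionOnto_apply_left hXY)

/-- square-zero maps lift -/
theorem AutLiftable.sq (hM : AutLiftable R M) (K : Submodule R M) (q : K →ₗ[R] C)
    (h : M →ₗ[R] C) (h0 : ∀ x ∈ K, h x = 0) (hr : ∀ x, h x ∈ LinearMap.range q) :
    ∃ g : M →ₗ[R] K, ∀ x, q (g x) = h x := by
  let N := (LinearMap.ker q).map K.subtype
  have hN : ∀ x : K, N.mkQ x = 0 ↔ q x = 0 := fun x => by
    rw [mkQ_apply, Quotient.mk_eq_zero]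
    exact ⟨fun ⟨y, hy, hyx⟩ => (Subtype.ext hyx : y = x) ▸ hy, fun hx => ⟨x, hx, rfl⟩⟩
  let i : LinearMap.range q →ₗ[R] M ⧸ N :=
    (LinearMap.ker q).liftQ (N.mkQ ∘ₗ K.subtype) (fun x hx => (hN x).2 hx) ∘ₗ
      q.quotKerEquivRange.symm.toLinearMap
  have hi : ∀ x : K, i ⟨q x, x, rfl⟩ = N.mkQ x := fun x => by
    simp [i, LinearMap.quotKerEquivRange_symm_apply_image]
  let ψ : (M ⧸ N) →ₗ[R] M ⧸ N := N.liftQ (i ∘ₗ h.codRestrict _ hr) <| by
    rintro _ ⟨x, -, rfl⟩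
    have : h.codRestrict _ hr x = 0 := Subtype.ext (h0 x x.2)
    rw [LinearMap.mem_ker, LinearMap.comp_apply, subtype_apply, this, map_zero]
  have hψ : ∀ x, ∃ k : K, ψ (N.mkQ x) = N.mkQ k ∧ q k = h x := fun x => by
    obtain ⟨k, hk⟩ := hr x
    refine ⟨k, ?_, hk⟩
    rw [← hi]
    exact congrArg i (Subtype.ext hk.symm)
  have hψ2 : ∀ y, ψ (ψ y) = 0 := fun y => by
    obtain ⟨x, rfl⟩ := mkQ_surjective N y
    obtain ⟨k, hk, -⟩ := hψ x
    obtain ⟨k', hk', hk''⟩ := hψ k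
    rw [hk, hk', hN, hk'', h0 k k.2]
  obtain ⟨f, hf⟩ := hM.lift_of_bij_sub N.mkQ (mkQ_surjective N) (e := ψ)
    ⟨(injective_iff_map_eq_zero _).2 fun y hy => by
      have h1 : y = ψ y := sub_eq_zero.1 hy
      rw [h1, h1, hψ2], fun y => ⟨y + ψ y, by simp [hψ2]⟩⟩
  have key : ∀ x, ∃ k : K, (k : M) = f x ∧ q k = h x := fun x => by
    obtain ⟨k, hk, hk'⟩ := hψ x
    obtain ⟨y, hy, hy'⟩ := (Submodule.Quotient.eq N).1 ((hf x).trans hk)
    refine ⟨y + k, ?_, by rw [map_add, LinearMap.mem_ker.1 hy, zero_add, hk']⟩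
    rw [coe_add, ← subtype_apply, hy', sub_add_cancel]
  refine ⟨f.codRestrict K fun x => ?_, fun x => ?_⟩
  · obtain ⟨k, hk, -⟩ := key x
    exact hk ▸ k.2
  · obtain ⟨k, hk, hk'⟩ := key x
    rw [← hk']
    exact congrArg q (Subtype.ext hk.symm)

theorem AutLiftable.mutual (hM : AutLiftable R M) {A B : Submodule R M} (hAB : IsCompl A B)
    (q : B →ₗ[R] C) (h : A →ₗ[R] C) (hr : ∀ x, h x ∈ LinearMap.range q) :
    ∃ g : A →ₗ[R] B, ∀ x, q (g x) = h x := by
  obtain ⟨g, hg⟩ := hM.sq B q (h ∘ₗ A.projectionOnto B hAB)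
    (fun x hx => by
      rw [LinearMap.comp_apply, (projectionOnto_apply_eq_zero_iff hAB).2 hx, map_zero])
    fun x => hr _
  exact ⟨g ∘ₗ A.subtype, fun x => by
    rw [LinearMap.comp_apply, hg, LinearMap.comp_apply, subtype_apply,
      projectionOnto_apply_left]⟩

theorem proj_lift {X : Type*} [AddCommGroup X] [Module R X] [Module.Projective R X]
    (p : M →ₗ[R] C) (h : X →ₗ[R] C) (hr : ∀ x, h x ∈ LinearMap.range p) :
    ∃ g : X →ₗ[R] M, ∀ x, p (g x) = h x := by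
  obtain ⟨g, hg⟩ := Module.projective_lifting_property p.rangeRestrict (h.codRestrict _ hr)
    p.surjective_rangeRestrict
  exact ⟨g, fun x => congrArg Subtype.val (DFunLike.congr_fun hg x)⟩

theorem endLiftable_of_projective [Module.Projective R M] : EndLiftable R M := fun N e =>
  Module.projective_lifting_property N.mkQ (e ∘ₗ N.mkQ) (mkQ_surjective N)

/-- lifting an endomorphism on an invariant piece -/
theorem EndLiftable.piece {Z : Submodule R M} (hZ : EndLiftable R Z) (p : M →ₗ[R] C)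
    (e : C →ₗ[R] C) (he : ∀ x ∈ Z, e (p x) ∈ Z.map p) :
    ∃ f : Z →ₗ[R] M, ∀ x, p (f x) = e (p x) := by
  obtain ⟨f, hf⟩ := hZ.lift (p.submoduleMap Z) (p.submoduleMap_surjective Z)
    (e.restrict (p := Z.map p) (q := Z.map p) (by rintro _ ⟨x, hx, rfl⟩; exact he x hx))
  exact ⟨Z.subtype ∘ₗ f, fun x => congrArg Subtype.val (hf x)⟩

theorem exists_max_disjoint {X S : Submodule R M} (h : Disjoint X S) :
    ∃ K, X ≤ K ∧ Disjoint K S ∧ ∀ K', K ≤ K' → Disjoint K' S → K' ≤ K := by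
  obtain ⟨K, hXK, hK⟩ := zorn_le_nonempty₀ {K : Submodule R M | Disjoint K S}
    (fun c hc hc' y hy => ⟨sSup c, Submodule.disjoint_def.2 fun x hx hxS => by
      obtain ⟨z, hz, hxz⟩ := (mem_sSup_of_directed ⟨y, hy⟩ hc'.directedOn).1 hx
      exact Submodule.disjoint_def.1 (hc hz) x hxz hxS, fun z hz => le_sSup hz⟩) X h
  exact ⟨K, hXK, hK.prop, fun K' h1 h2 => hK.le_of_ge h2 h1⟩

variable [G : Good.{u, w} R]
include G

theorem IsMx.cmp {P : Ideal R} (hP : IsMx P) {K S : Submodule R M} (h : Disjoint K S)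
    (hmax : ∀ K', K ≤ K' → Disjoint K' S → K' ≤ K) : col P K ≤ K ⊔ (S ⊓ col P ⊥) := by
  have := hP.1.1
  have h1 : col P (⊥ : Submodule R (M ⧸ K)) ≤ S.map K.mkQ := by
    by_contra hn
    obtain ⟨T, hT, -, hTS⟩ := hP.exists_atom le_rfl hn
    have h2 : T.comap K.mkQ ≤ K := hmax _ (le_comap_mkQ K T) (Submodule.disjoint_def.2 fun x hx hxS =>
      Submodule.disjoint_def.1 h x ((Quotient.mk_eq_zero K).1
        (Submodule.disjoint_def.1 hTS _ hx (mem_map_of_mem hxS))) hxS)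
    refine hT.1 (eq_bot_iff.2 fun y hy => ?_)
    obtain ⟨y, rfl⟩ := mkQ_surjective K y
    exact (Quotient.mk_eq_zero K).2 (h2 hy)
  intro x hx
  rw [mem_col] at hx
  obtain ⟨s, hs, hsx⟩ := h1 (mem_col.2 fun a ha => by
    rw [← map_smul K.mkQ]; exact (Quotient.mk_eq_zero K).2 (hx a ha) : K.mkQ x ∈ _)
  have h3 : s - x ∈ K := (Submodule.Quotient.eq K).1 hsx
  refine mem_sup.2 ⟨-(s - x), neg_mem h3, s, ⟨hs, mem_col.2 fun a ha => ?_⟩, by abel⟩
  refine Submodule.disjoint_def.1 h _ ?_ (S.smul_mem a hs)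
  have : a • s = a • (s - x) + a • x := by rw [smul_sub, sub_add_cancel]
  rw [this]
  exact add_mem (K.smul_mem a h3) (hx a ha)

/-- complements in divisible modules are divisible -/
theorem Dv.exists_between (hM : Dv (⊤ : Submodule R M)) {X S : Submodule R M} (h : Disjoint X S) :
    ∃ K, X ≤ K ∧ Disjoint K S ∧ Dv K := by
  obtain ⟨K, h1, h2, h3⟩ := exists_max_disjoint h
  refine ⟨K, h1, h2, dv_of_mx fun P hP => ?_⟩
  refine (hP.1.lemC (le_top.trans (hM P hP.1))).trans ?_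
  refine (smul_mono le_rfl (inf_le_right.trans (hP.cmp h2 h3))).trans ?_
  rw [smul_sup]
  exact sup_le le_rfl (((smul_mono le_rfl inf_le_right).trans smul_col_le).trans bot_le)

theorem IsMx.exists_isCompl {P : Ideal R} (hP : IsMx P) {X : Submodule R M} {n : ℕ}
    (hM : P ^ (n + 1) • (⊤ : Submodule R M) = ⊥) (hX : X ⊓ col P ⊥ ≤ P ^ n • X) :
    ∃ K, IsCompl X K := by
  have := hP.1.1
  obtain ⟨K, -, h2, h3⟩ := exists_max_disjoint (disjoint_bot_left : Disjoint ⊥ X)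
  have key : ∀ k, k ≤ n + 1 → col (P ^ k) K ≤ X ⊔ K := by
    intro k
    induction k with
    | zero => intro _; rw [pow_zero', col_top]; exact le_sup_right
    | succ k ih =>
      intro hk
      rw [Ideal.IsTwoSided.pow_succ, col_mul]
      have h4 : col P K ≤ P ^ k • X ⊔ K := (hP.cmp h2 h3).trans <| by
        rw [sup_comm]
        exact sup_le_sup (hX.trans (smul_mono_left (pow_anti P (by omega)))) le_rfl
      exact ((col_mono le_rfl h4).trans ((hP.1.pow k).cancel X K)).trans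
        (sup_le le_sup_left (ih (by omega)))
  refine ⟨K, h2.symm, codisjoint_iff.2 (eq_top_iff.2 (le_trans ?_ (key _ le_rfl)))⟩
  rw [le_col_iff, hM]
  exact bot_le

theorem IsMx.hom_ext {P : Ideal R} (hP : IsMx P) {A : Submodule R M} (hA : A ≠ ⊥)
    (hAP : A ≤ col P ⊥) {Y : Submodule R C} (hY : Dv Y) {y : C} (hy : y ∈ Y) (hy0 : y ≠ 0)
    (hyP : y ∈ col P (⊥ : Submodule R C)) :
    ∃ k : M →ₗ[R] C, (∀ x, k x ∈ Y) ∧ ∃ a ∈ A, k a ≠ 0 := by
  have h1 : ¬ (⊤ : Submodule R A) ≤ P • ⊤ := fun h =>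
    hA (eq_bot_iff.2 ((top_le_smul_iff.1 h).trans (le_col_iff.1 hAP)))
  obtain ⟨f, hf, hf'⟩ := hP.exists_hom h1 hy0 hyP
  obtain ⟨k, hk, hk'⟩ := hY.ext A.subtype A.injective_subtype f
    fun a => (span_singleton_le_iff_mem _ _).2 hy (hf' a)
  obtain ⟨a, ha⟩ := DFunLike.ne_iff.1 hf
  exact ⟨k, hk, a, a.2, by rwa [← hk'] at ha⟩

end Pool.Agent.MP_181731_al
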