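import Mathlib

namespace Pool.Agent.MP_181731_al

open Function
open scoped Pointwise

universe u v w

section defs
variable {R : Type u} [Ring R]

/-- nonzero two-sided ideal -/
def NZ (I : Ideal R) : Prop := I.IsTwoSided ∧ I ≠ ⊥

/-- divisible submodule -/
def Dv {M : Type*} [AddCommGroup M] [Module R M] (Y : Submodule R M) : Prop :=
  ∀ I : Ideal R, NZ I → Y ≤ I • Y

/-- torsion-free module -/
def TF (R : Type u) [Ring R] (M : Type*) [AddCommGroup M] [Module R M] : Prop :=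
  ∀ x : M, ∀ I : Ideal R, NZ I → (∀ a ∈ I, a • x = 0) → x = 0

def DualData (L I : Ideal R) : Prop :=
  ∃ (n : ℕ) (a : Fin n → L) (l : Fin n → L →ₗ[R] R), (∀ x : L, ∑ i, l i x • a i = x) ∧
    ∀ i, ∀ b ∈ I, ∃ c : R, ∀ x : L, l i x * b = (x : R) * c

end defs

class Good (R : Type u) [Ring R] : Prop where
  nontriv : Nontrivial R
  noeth : IsNoetherianRing R
  noethR : IsNoetherian Rᵐᵒᵖ R
  dualSelf : ∀ I : Ideal R, NZ I → DualData I I
  dual : ∀ L : Ideal R, ∃ I, NZ I ∧ DualData L I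
  trace : ∀ I : Ideal R, NZ I → ⨆ l : I →ₗ[R] R, LinearMap.range l = ⊤
  tf : TF R R
  artin : ∀ I : Ideal R, NZ I → IsArtinian R (R ⧸ I)
  nonprim : ∀ m : Ideal R, m.IsMaximal → ∃ I, NZ I ∧ I ≤ m
  ann : ∀ L : Ideal R, (∀ I, NZ I → ¬ I ≤ L) → ∃ r : R, r ≠ 0 ∧ ∀ x ∈ L, x * r = 0
  hull : ∃ (Q : Type w) (_ : AddCommGroup Q) (_ : Module R Q) (j : R →ₗ[R] Q),
    Injective j ∧ Dv (⊤ : Submodule R Q) ∧ TF R Q ∧
    ∀ s : Finset Q, ∃ σ : Q →ₗ[R] Q, Injective σ ∧ ∀ q ∈ s, σ q ∈ LinearMap.range j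

structure Setup {R : Type u} {Q : Type w} [Ring R] [Ring Q] (ι : R →+* Q) : Prop where
  nontriv : Nontrivial R
  noeth : IsNoetherianRing R
  noethR : IsNoetherian Rᵐᵒᵖ R
  hered : ∀ L : Ideal R, Module.Projective R L
  inj : Injective ι
  ss : IsSemisimpleRing Q
  left : ∀ q : Q, ∃ c a : R, IsUnit (ι c) ∧ ι c * q = ι a
  right : ∀ q : Q, ∃ c a : R, IsUnit (ι c) ∧ q * ι c = ι a
  inv : ∀ I : Ideal R, NZ I → ∃ C : AddSubgroup Q,
    (∀ q ∈ C, ∀ a ∈ I, q * ι a ∈ ι.range ∧ ι a * q ∈ ι.range) ∧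
    (1 : Q) ∈ AddSubgroup.closure ((C : Set Q) * ι '' (I : Set R)) ∧
    (1 : Q) ∈ AddSubgroup.closure (ι '' (I : Set R) * (C : Set Q))
  nonprim : ∀ m : Ideal R, m.IsMaximal → ∃ I, NZ I ∧ I ≤ m

theorem span_frac_of_left {R : Type u} {Q : Type w} [Ring R] [Ring Q] {ι : R →+* Q}
    (hl : ∀ q : Q, ∃ c a : R, IsUnit (ι c) ∧ ι c * q = ι a)
    (L : Ideal R) {y : Q} (hy : y ∈ Ideal.span (ι '' (L : Set R))) :
    ∃ c : R, ∃ a ∈ L, IsUnit (ι c) ∧ ι c * y = ι a := by
  induction hy using Submodule.span_induction with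
  | mem y hy =>
    obtain ⟨a, ha, rfl⟩ := hy
    exact ⟨1, a, ha, by simp, by simp⟩
  | zero => exact ⟨1, 0, L.zero_mem, by simp, by simp⟩
  | add y z _ _ hy hz =>
    obtain ⟨c, a, ha, ⟨u, hu⟩, h⟩ := hy
    obtain ⟨c', a', ha', ⟨u', hu'⟩, h'⟩ := hz
    obtain ⟨d, e, hd, hde⟩ := hl (ι c * ↑u'⁻¹)
    have h2 : ι d * ι c = ι e * ι c' := by
      rw [← hde, ← hu']; simp only [mul_assoc, Units.inv_mul, mul_one]
    refine ⟨d * c, d * a + e * a', add_mem (L.mul_mem_left _ ha) (L.mul_mem_left _ ha'), ?_, ?_⟩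
    · rw [map_mul]; exact hd.mul ⟨u, hu⟩
    · rw [mul_add, map_add, map_mul, map_mul, map_mul, ← h, ← h']
      congr 1
      · rw [mul_assoc]
      · rw [h2, mul_assoc]
  | smul q y _ hy =>
    obtain ⟨c, a, ha, ⟨u, hu⟩, h⟩ := hy
    obtain ⟨d, e, hd, hde⟩ := hl (q * ↑u⁻¹)
    refine ⟨d, e * a, L.mul_mem_left _ ha, hd, ?_⟩
    rw [map_mul, ← hde, ← h, ← hu, smul_eq_mul]
    simp only [mul_assoc, Units.inv_mul_cancel_left]

namespace Setup

variable {R : Type u} {Q : Type w} [Ring R] [Ring Q] {ι : R →+* Q} (H : Setup ι)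
include H

theorem tf : TF R R := by
  intro x I hI hx
  obtain ⟨C, -, h1, -⟩ := H.inv I hI
  have : ∀ y ∈ AddSubgroup.closure ((C : Set Q) * ι '' (I : Set R)), y * ι x = 0 := by
    intro y hy
    induction hy using AddSubgroup.closure_induction with
    | mem y hy =>
      obtain ⟨q, -, _, ⟨a, ha, rfl⟩, rfl⟩ := hy
      have : a * x = 0 := hx a ha
      simp only [mul_assoc, ← map_mul, this, map_zero, mul_zero]
    | zero => simp
    | add a b _ _ ha hb => rw [add_mul, ha, hb, add_zero]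
    | neg a _ ha => rw [neg_mul, ha, neg_zero]
  have h := this 1 h1
  rw [one_mul] at h
  exact H.inj (by rw [h, map_zero])

theorem mul_nz {I J : Ideal R} (hI : NZ I) (hJ : NZ J) : NZ (I * J) := by
  have := hJ.1
  refine ⟨inferInstance, fun h => hJ.2 ?_⟩
  rw [eq_bot_iff]
  intro b hb
  refine H.tf b I hI fun a ha => ?_
  have : a * b ∈ I * J := Ideal.mul_mem_mul ha hb
  rw [h] at this
  exact this

theorem swap {I : Ideal R} (hI : NZ I) {q : Q} (hq : ∀ a ∈ I, ι a * q ∈ ι.range)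
    {b : R} (hb : b ∈ I) : q * ι b ∈ ι.range := by
  obtain ⟨C, hC, h1, -⟩ := H.inv I hI
  have : ∀ y ∈ AddSubgroup.closure ((C : Set Q) * ι '' (I : Set R)), y * (q * ι b) ∈ ι.range := by
    intro y hy
    induction hy using AddSubgroup.closure_induction with
    | mem y hy =>
      obtain ⟨c, hc, _, ⟨a, ha, rfl⟩, rfl⟩ := hy
      obtain ⟨r, hr⟩ := hq a ha
      have : c * ι a * (q * ι b) = c * ι (r * b) := by
        rw [map_mul, hr]; simp only [mul_assoc]
      simp only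
      rw [this]
      exact (hC c hc _ (I.mul_mem_left r hb)).1
    | zero => simp
    | add a b _ _ ha hb => rw [add_mul]; exact add_mem ha hb
    | neg a _ ha => rw [neg_mul]; exact neg_mem ha
  simpa using this 1 h1

theorem span_frac (L : Ideal R) {y : Q} (hy : y ∈ Ideal.span (ι '' (L : Set R))) :
    ∃ c : R, ∃ a ∈ L, IsUnit (ι c) ∧ ι c * y = ι a :=
  span_frac_of_left H.left L hy

theorem exists_unit_mem {I : Ideal R} (hI : NZ I) : ∃ c ∈ I, IsUnit (ι c) := by
  obtain ⟨C, -, h1, -⟩ := H.inv I hI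
  have : ∀ y ∈ AddSubgroup.closure ((C : Set Q) * ι '' (I : Set R)),
      y ∈ Ideal.span (ι '' (I : Set R)) := by
    intro y hy
    induction hy using AddSubgroup.closure_induction with
    | mem y hy =>
      obtain ⟨q, -, z, hz, rfl⟩ := hy
      exact Ideal.mul_mem_left _ _ (Ideal.subset_span hz)
    | zero => simp
    | add a b _ _ ha hb => exact add_mem ha hb
    | neg a _ ha => exact neg_mem ha
  obtain ⟨c, a, ha, hc, h⟩ := H.span_frac I (this 1 h1)
  rw [mul_one] at h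
  exact ⟨a, ha, h ▸ hc⟩

/-- homomorphisms from a left ideal to `R` are right multiplications -/
theorem homRep (L : Ideal R) : ∃ c : R, IsUnit (ι c) ∧ ∀ φ : L →ₗ[R] R, ∃ q : Q,
    ι c * q ∈ ι.range ∧ ∀ x : L, ι (φ x) = ι x * q := by
  have := H.ss
  obtain ⟨e, he, hL⟩ := IsSemisimpleRing.ideal_eq_span_idempotent (Ideal.span (ι '' (L : Set R)))
  obtain ⟨c, a, ha, ⟨u, hu⟩, h⟩ := H.span_frac L (y := e)
    (hL ▸ Ideal.subset_span (Set.mem_singleton e))
  refine ⟨c, ⟨u, hu⟩, fun φ => ⟨↑u⁻¹ * ι (φ ⟨a, ha⟩), ⟨φ ⟨a, ha⟩, ?_⟩, fun x => ?_⟩⟩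
  · rw [← hu, Units.mul_inv_cancel_left]
  · have hx : ι x ∈ Ideal.span {e} := hL ▸ Ideal.subset_span ⟨x, x.2, rfl⟩
    obtain ⟨y, hy⟩ := Ideal.mem_span_singleton'.1 hx
    have hxe : ι x * e = ι x := by rw [← hy, mul_assoc, he.eq]
    obtain ⟨d, b, hd, hdb⟩ := H.left (ι x * ↑u⁻¹)
    have h1 : d * (x : R) = b * a := by
      apply H.inj
      rw [map_mul, map_mul, ← hdb, ← h, ← hu]
      simp only [mul_assoc, Units.inv_mul_cancel_left, hxe]
    have h2 : d • x = b • (⟨a, ha⟩ : L) := Subtype.ext h1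
    have h3 : d * φ x = b * φ ⟨a, ha⟩ := by
      rw [← smul_eq_mul, ← map_smul, h2, map_smul, smul_eq_mul]
    apply hd.mul_left_cancel
    rw [← map_mul, h3, map_mul, ← hdb]
    simp only [mul_assoc]

theorem dualBasis (L : Ideal R) : ∃ (n : ℕ) (a : Fin n → L) (l : Fin n → L →ₗ[R] R),
    ∀ x : L, ∑ i, l i x • a i = x := by
  have := H.noeth
  have := H.hered L
  obtain ⟨n, f, g, -, -, hfg⟩ := Module.Finite.exists_comp_eq_id_of_projective R L
  refine ⟨n, fun i => f (Pi.single i 1), fun i => LinearMap.proj i ∘ₗ g, fun x => ?_⟩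
  have : f (g x) = x := DFunLike.congr_fun hfg x
  conv_rhs => rw [← this, ← Finset.univ_sum_single (g x), map_sum]
  refine Finset.sum_congr rfl fun i _ => ?_
  rw [← map_smul, ← Pi.single_smul', smul_eq_mul, mul_one]
  rfl

theorem dualData_of {L I : Ideal R} (hI : NZ I)
    (h : ∀ φ : L →ₗ[R] R, ∃ q : Q, (∀ a ∈ I, ι a * q ∈ ι.range) ∧ ∀ x : L, ι (φ x) = ι x * q) :
    DualData L I := by
  obtain ⟨n, a, l, hl⟩ := H.dualBasis L
  refine ⟨n, a, l, hl, fun i b hb => ?_⟩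
  obtain ⟨q, hq, hq'⟩ := h (l i)
  obtain ⟨c, hc⟩ := H.swap hI hq hb
  refine ⟨c, fun x => H.inj ?_⟩
  rw [map_mul, map_mul, hq', hc, mul_assoc]

theorem dualSelf {I : Ideal R} (hI : NZ I) : DualData I I := by
  obtain ⟨c, -, h⟩ := H.homRep I
  refine H.dualData_of hI fun φ => ?_
  obtain ⟨q, -, hq⟩ := h φ
  exact ⟨q, fun a ha => ⟨φ ⟨a, ha⟩, hq ⟨a, ha⟩⟩, hq⟩

theorem trace {I : Ideal R} (hI : NZ I) : ⨆ l : I →ₗ[R] R, LinearMap.range l = ⊤ := by
  obtain ⟨C, hC, -, h1⟩ := H.inv I hI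
  set T := ⨆ l : I →ₗ[R] R, LinearMap.range l
  have : ∀ y ∈ AddSubgroup.closure (ι '' (I : Set R) * (C : Set Q)), ∃ t ∈ T, ι t = y := by
    intro y hy
    induction hy using AddSubgroup.closure_induction with
    | mem y hy =>
      obtain ⟨_, ⟨a, ha, rfl⟩, q, hq, rfl⟩ := hy
      choose f hf using fun x : I => (hC q hq x x.2).2
      let l : I →ₗ[R] R :=
        { toFun := f
          map_add' := fun x y => H.inj (by
            rw [map_add, hf, hf, hf, Submodule.coe_add, map_add, add_mul])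
          map_smul' := fun r x => H.inj (by
            simp only [RingHom.id_apply, smul_eq_mul, map_mul, hf, Submodule.coe_smul,
              mul_assoc]) }
      exact ⟨l ⟨a, ha⟩, le_iSup (fun l : I →ₗ[R] R => LinearMap.range l) l ⟨_, rfl⟩,
        hf ⟨a, ha⟩⟩
    | zero => exact ⟨0, T.zero_mem, map_zero _⟩
    | add a b _ _ ha hb =>
      obtain ⟨s, hs, rfl⟩ := ha
      obtain ⟨t, ht, rfl⟩ := hb
      exact ⟨s + t, add_mem hs ht, map_add _ _ _⟩
    | neg a _ ha =>
      obtain ⟨s, hs, rfl⟩ := ha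
      exact ⟨-s, neg_mem hs, map_neg _ _⟩
  obtain ⟨t, ht, h⟩ := this 1 h1
  have : t = 1 := H.inj (by rw [h, map_one])
  exact (Ideal.eq_top_iff_one T).2 (this ▸ ht)

/-- restricted minimum condition -/
theorem artin_unit {c : R} (hc : IsUnit (ι c)) : IsArtinian R (R ⧸ Ideal.span {c}) := by
  obtain ⟨u, hu⟩ := hc
  let dag : Ideal R → Submodule Rᵐᵒᵖ R := fun L =>
    { carrier := {r | ∀ x ∈ L, ι x * ↑u⁻¹ * ι r ∈ ι.range}
      add_mem' := fun {a b} ha hb x hx => by
        rw [map_add, mul_add]; exact add_mem (ha x hx) (hb x hx)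
      zero_mem' := fun x _ => by simp
      smul_mem' := fun s r hr x hx => by
        have : ι x * ↑u⁻¹ * ι (s • r) = ι x * ↑u⁻¹ * ι r * ι s.unop := by
          rw [MulOpposite.smul_eq_mul_unop, map_mul, ← mul_assoc]
        rw [this]
        exact mul_mem (hr x hx) ⟨_, rfl⟩ }
  have key : ∀ L L' : Ideal R, c ∈ L → dag L ≤ dag L' → L' ≤ L := by
    intro L L' hcL hle x hx
    obtain ⟨n, a, l, hl⟩ := H.dualBasis L
    obtain ⟨c', -, h⟩ := H.homRep L
    choose q _ hq using fun i => h (l i)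
    have hq' : ∀ i, q i = ↑u⁻¹ * ι (l i ⟨c, hcL⟩) := fun i => by
      rw [hq, ← hu]; simp
    have hr : ∀ i, l i ⟨c, hcL⟩ ∈ dag L := fun i y hy => by
      rw [mul_assoc, ← hq']
      exact ⟨_, hq i ⟨y, hy⟩⟩
    have h1 : ∑ i, q i * ι (a i) = 1 := by
      apply (u.isUnit).mul_left_cancel
      have := congrArg (fun z : L => ι z) (hl ⟨c, hcL⟩)
      simp only [AddSubmonoidClass.coe_finsetSum, Submodule.coe_smul, smul_eq_mul, map_sum,
        map_mul, hq] at this
      rw [mul_one, Finset.mul_sum, hu]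
      simpa only [mul_assoc] using this
    choose y hy using fun i => hle (hr i) x hx
    have : x = ∑ i, y i * a i := by
      apply H.inj
      rw [map_sum]
      simp only [map_mul, hy, mul_assoc]
      rw [← Finset.mul_sum]
      simp only [← mul_assoc, ← hq', h1, mul_one]
    rw [this]
    exact Submodule.sum_mem _ fun i _ => L.mul_mem_left _ (a i).2
  have := H.noethR
  rw [← monotone_stabilizes_iff_artinian]
  intro f
  let g : ℕ → Ideal R := fun n => (OrderDual.ofDual (f n)).comap (Ideal.span {c}).mkQ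
  have hg : ∀ n, c ∈ g n := fun n => by
    simp only [g, Submodule.mem_comap, Submodule.mkQ_apply]
    rw [(Submodule.Quotient.mk_eq_zero _).2 (Ideal.subset_span (Set.mem_singleton c))]
    exact zero_mem _
  have hanti : ∀ m n, m ≤ n → g n ≤ g m := fun m n h =>
    Submodule.comap_mono (OrderDual.ofDual_le_ofDual.2 (f.monotone h))
  let G : ℕ →o Submodule Rᵐᵒᵖ R :=
    ⟨fun n => dag (g n), fun m n h r hr x hx => hr x (hanti m n h hx)⟩
  obtain ⟨n, hn⟩ := monotone_stabilizes_iff_noetherian.2 H.noethR G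
  refine ⟨n, fun m hm => ?_⟩
  have h1 : g n = g m := le_antisymm (key _ _ (hg m) (hn m hm).ge) (hanti n m hm)
  have := Submodule.comap_injective_of_surjective (Submodule.mkQ_surjective (Ideal.span {c})) h1
  exact OrderDual.ofDual.injective this

theorem ann_of_finiteLength {X : Type*} [AddCommGroup X] [Module R X] (h : IsFiniteLength R X) :
    ∃ I : Ideal R, NZ I ∧ ∀ a ∈ I, ∀ x : X, a • x = 0 := by
  induction h with
  | of_subsingleton =>
    have := H.nontriv
    exact ⟨⊤, ⟨inferInstance, top_ne_bot⟩, fun a _ x => Subsingleton.elim _ _⟩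
  | @of_simple_quotient M _ _ N _ _ ih =>
    obtain ⟨I, hI, hIN⟩ := ih
    obtain ⟨m, hm, ⟨e⟩⟩ := (isSimpleModule_iff_quot_maximal (R := R) (M := M ⧸ N)).1 inferInstance
    obtain ⟨J, hJ, hJm⟩ := H.nonprim m hm
    have := hJ.1
    have hJN : ∀ b ∈ J, ∀ x : M, b • x ∈ N := by
      intro b hb x
      rw [← Submodule.Quotient.mk_eq_zero, Submodule.Quotient.mk_smul]
      apply e.injective
      obtain ⟨r, hr⟩ := Submodule.Quotient.mk_surjective m (e (Submodule.Quotient.mk x))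
      rw [map_smul, map_zero, ← hr, ← Submodule.Quotient.mk_smul, Submodule.Quotient.mk_eq_zero]
      exact hJm (J.mul_mem_right r hb)
    refine ⟨I * J, H.mul_nz hI hJ, fun a ha x => ?_⟩
    refine Submodule.smul_induction_on ha (fun r hr b hb => ?_) (fun a b ha hb => ?_)
    · have := congrArg Subtype.val (hIN r hr ⟨_, hJN b hb x⟩)
      rw [smul_eq_mul, mul_smul]
      exact this
    · rw [add_smul, ha, hb, add_zero]

theorem bounded {c : R} (hc : IsUnit (ι c)) : ∃ I : Ideal R, NZ I ∧ I ≤ Ideal.span {c} := by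
  have := H.noeth
  have := H.artin_unit hc
  obtain ⟨I, hI, h⟩ := H.ann_of_finiteLength (X := R ⧸ Ideal.span {c})
    (isFiniteLength_iff_isNoetherian_isArtinian.2 ⟨inferInstance, inferInstance⟩)
  refine ⟨I, hI, fun a ha => ?_⟩
  have := h a ha (Submodule.Quotient.mk 1)
  rwa [← Submodule.Quotient.mk_smul, Submodule.Quotient.mk_eq_zero, smul_eq_mul, mul_one] at this

theorem dual (L : Ideal R) : ∃ I, NZ I ∧ DualData L I := by
  obtain ⟨c, hc, h⟩ := H.homRep L
  obtain ⟨I, hI, hIc⟩ := H.bounded hc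
  refine ⟨I, hI, H.dualData_of hI fun φ => ?_⟩
  obtain ⟨q, hq, hq'⟩ := h φ
  refine ⟨q, fun a ha => ?_, hq'⟩
  obtain ⟨r, rfl⟩ := Ideal.mem_span_singleton'.1 (hIc ha)
  rw [map_mul, mul_assoc]
  exact mul_mem ⟨_, rfl⟩ hq

theorem artin {I : Ideal R} (hI : NZ I) : IsArtinian R (R ⧸ I) := by
  obtain ⟨c, hcI, hc⟩ := H.exists_unit_mem hI
  have := H.artin_unit hc
  have hle : Ideal.span {c} ≤ I := by rwa [Ideal.span_singleton_le_iff_mem]
  exact isArtinian_of_surjective _ (Submodule.factor hle) (Submodule.factor_surjective hle)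

theorem ann (L : Ideal R) (hL : ∀ I, NZ I → ¬ I ≤ L) : ∃ r : R, r ≠ 0 ∧ ∀ x ∈ L, x * r = 0 := by
  have := H.ss
  obtain ⟨e, he, hLe⟩ := IsSemisimpleRing.ideal_eq_span_idempotent (Ideal.span (ι '' (L : Set R)))
  obtain ⟨c, a, ha, hc, h⟩ := H.span_frac L (y := e)
    (hLe ▸ Ideal.subset_span (Set.mem_singleton e))
  have he1 : 1 - e ≠ 0 := by
    intro h1
    have : e = 1 := (sub_eq_zero.1 h1).symm
    rw [this, mul_one] at h
    obtain ⟨I, hI, hIa⟩ := H.bounded (h ▸ hc : IsUnit (ι a))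
    exact hL I hI (hIa.trans (by rwa [Ideal.span_singleton_le_iff_mem]))
  obtain ⟨d, r, hd, hr⟩ := H.right (1 - e)
  refine ⟨r, fun h0 => he1 ?_, fun x hx => H.inj ?_⟩
  · rw [h0, map_zero] at hr
    exact hd.mul_left_eq_zero.1 hr
  · have hx : ι x ∈ Ideal.span {e} := hLe ▸ Ideal.subset_span ⟨x, hx, rfl⟩
    obtain ⟨y, hy⟩ := Ideal.mem_span_singleton'.1 hx
    rw [map_mul, ← hr, ← hy, map_zero, ← mul_assoc, mul_assoc y, mul_sub, mul_one, he.eq,
      sub_self, mul_zero, zero_mul]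

theorem right_common (s : Finset Q) : ∃ c : R, IsUnit (ι c) ∧ ∀ q ∈ s, q * ι c ∈ ι.range := by
  classical
  induction s using Finset.induction_on with
  | empty => exact ⟨1, by simp, by simp⟩
  | insert q s _ ih =>
    obtain ⟨c, hc, h⟩ := ih
    obtain ⟨d, a, hd, hda⟩ := H.right (q * ι c)
    refine ⟨c * d, by rw [map_mul]; exact hc.mul hd, fun p hp => ?_⟩
    rw [map_mul, ← mul_assoc]
    rcases Finset.mem_insert.1 hp with rfl | hp
    · exact ⟨a, hda.symm⟩
    · exact mul_mem (h p hp) ⟨_, rfl⟩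

theorem good : Good.{u, w} R where
  nontriv := H.nontriv
  noeth := H.noeth
  noethR := H.noethR
  dualSelf := fun _ => H.dualSelf
  dual := H.dual
  trace := fun _ => H.trace
  tf := H.tf
  artin := fun _ => H.artin
  nonprim := H.nonprim
  ann := H.ann
  hull := by
    let _ : Module R Q := Module.compHom Q ι
    have hs : ∀ (r : R) (q : Q), r • q = ι r * q := fun _ _ => rfl
    let j : R →ₗ[R] Q :=
      { toFun := ι, map_add' := map_add ι, map_smul' := fun r x => by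
          simp only [smul_eq_mul, map_mul, RingHom.id_apply, hs] }
    refine ⟨Q, inferInstance, inferInstance, j, H.inj, fun I hI q _ => ?_, fun q I hI hq => ?_,
      fun s => ?_⟩
    · obtain ⟨c, hcI, u, hu⟩ := H.exists_unit_mem hI
      have : q = c • ((↑u⁻¹ : Q) * q) := by rw [hs, ← hu, Units.mul_inv_cancel_left]
      rw [this]
      exact Submodule.smul_mem_smul hcI Submodule.mem_top
    · obtain ⟨c, hcI, hc⟩ := H.exists_unit_mem hI
      exact hc.mul_right_eq_zero.1 (hq c hcI)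
    · obtain ⟨c, hc, h⟩ := H.right_common s
      refine ⟨{ toFun := fun q => q * ι c
                map_add' := fun _ _ => add_mul _ _ _
                map_smul' := fun r x => by simp only [hs, RingHom.id_apply, mul_assoc] },
        fun x y hxy => hc.mul_right_cancel hxy, fun q hq => ?_⟩
      obtain ⟨r, hr⟩ := h q hq
      exact ⟨r, hr⟩

end Setup

end Pool.Agent.MP_181731_al
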