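import Mathlib

namespace Pool.Agent.MP_181731_al

open scoped Pointwise

universe u

/-- Every automorphism of every quotient `M ⧸ N` lifts to an endomorphism of `M`. -/
def AutLiftable (R M : Type*) [Ring R] [AddCommGroup M] [Module R M] : Prop :=
  ∀ (N : Submodule R M) (e : (M ⧸ N) ≃ₗ[R] (M ⧸ N)),
    ∃ f : M →ₗ[R] M, N.mkQ ∘ₗ f = e.toLinearMap ∘ₗ N.mkQ

/-- Every endomorphism of every quotient `M ⧸ N` lifts to an endomorphism of `M`. -/
def EndLiftable (R M : Type*) [Ring R] [AddCommGroup M] [Module R M] : Prop :=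
  ∀ (N : Submodule R M) (e : (M ⧸ N) →ₗ[R] (M ⧸ N)),
    ∃ f : M →ₗ[R] M, N.mkQ ∘ₗ f = e ∘ₗ N.mkQ

/-- `R` has a faithful simple left module. -/
def Primitive (R : Type u) [Ring R] : Prop :=
  ∃ (S : Type u) (_ : AddCommGroup S) (_ : Module R S), IsSimpleModule R S ∧ FaithfulSMul R S

variable {A Q : Type*} [Ring A] [Ring Q]

/-- `ι : A → Q` is a classical left and right ring of fractions of `A`. -/
structure IsClassicalFractions (ι : A →+* Q) : Prop where
  injective : Function.Injective ι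
  isUnit : ∀ c ∈ nonZeroDivisors A, IsUnit (ι c)
  right : ∀ q : Q, ∃ a : A, ∃ c ∈ nonZeroDivisors A, q * ι c = ι a
  left : ∀ q : Q, ∃ a : A, ∃ c ∈ nonZeroDivisors A, ι c * q = ι a

/-- `B C = C B = A` for some sub-bimodule `C` of `Q`. -/
def InvertibleIdeal (ι : A →+* Q) (B : TwoSidedIdeal A) : Prop :=
  ∃ C : AddSubgroup Q, (∀ a : A, ∀ q ∈ C, ι a * q ∈ C ∧ q * ι a ∈ C) ∧
    AddSubgroup.closure (ι '' (B : Set A) * (C : Set Q)) = ι.range.toAddSubgroup ∧
    AddSubgroup.closure ((C : Set Q) * ι '' (B : Set A)) = ι.range.toAddSubgroup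

/-- `A` is a Dedekind prime ring with classical ring of fractions `ι : A → Q`. -/
structure IsDedekindPrime (ι : A →+* Q) : Prop where
  nontrivial : Nontrivial A
  prime : ∀ a b : A, (∀ x : A, a * x * b = 0) → a = 0 ∨ b = 0
  leftNoetherian : IsNoetherianRing A
  rightNoetherian : IsNoetherianRing Aᵐᵒᵖ
  leftHereditary : ∀ L : Ideal A, Module.Projective A L
  rightHereditary : ∀ L : Ideal Aᵐᵒᵖ, Module.Projective Aᵐᵒᵖ L
  fractions : IsClassicalFractions ι
  invertible : ∀ B : TwoSidedIdeal A, B ≠ ⊥ → InvertibleIdeal ι B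

end Pool.Agent.MP_181731_al
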