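import Pool.Agent.MP_181731_al.Inf

namespace Pool.Agent.MP_181731_al

open Function Submodule

universe u v w

variable {R : Type u} [Ring R]
variable {M : Type*} [AddCommGroup M] [Module R M] {C : Type*} [AddCommGroup C] [Module R C]

theorem el_of_isCompl {A B : Submodule R M} (h : IsCompl A B)
    (hA : ∀ (N : Submodule R M) (e : (M ⧸ N) →ₗ[R] M ⧸ N),
      ∃ f : A →ₗ[R] M, ∀ x, N.mkQ (f x) = e (N.mkQ x))
    (hB : ∀ (N : Submodule R M) (e : (M ⧸ N) →ₗ[R] M ⧸ N),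
      ∃ f : B →ₗ[R] M, ∀ x, N.mkQ (f x) = e (N.mkQ x)) : EndLiftable R M := by
  intro N e
  obtain ⟨f, hf⟩ := hA N e
  obtain ⟨g, hg⟩ := hB N e
  refine ⟨LinearMap.ofIsCompl h f g, LinearMap.ext fun x => ?_⟩
  obtain ⟨a, ha, b, hb, rfl⟩ := mem_sup.1 (h.sup_eq_top ▸ mem_top : x ∈ _)
  have h1 := LinearMap.ofIsCompl_apply_left h (φ := f) (ψ := g) ⟨a, ha⟩
  have h2 := LinearMap.ofIsCompl_apply_right h (φ := f) (ψ := g) ⟨b, hb⟩
  simp only [LinearMap.comp_apply, map_add] at h1 h2 ⊢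
  rw [h1, h2, hf, hg]

/-- maps from `A` into the image of `S` lift to `S` -/
def LP (A : Type*) [AddCommGroup A] [Module R A] (S : Submodule R M) : Prop :=
  ∀ (N : Submodule R M) (h : A →ₗ[R] M ⧸ N), (∀ x, h x ∈ S.map N.mkQ) →
    ∃ g : A →ₗ[R] M, (∀ x, g x ∈ S) ∧ ∀ x, N.mkQ (g x) = h x

theorem LP.bot : LP C (⊥ : Submodule R M) := fun N h hh =>
  ⟨0, fun _ => zero_mem _, fun x => by
    have := hh x
    rw [Submodule.map_bot, mem_bot] at this
    simp [this]⟩

theorem LP.sup {S T : Submodule R M} (hS : LP C S) (hT : LP C T) : LP C (S ⊔ T) := by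
  intro N h hh
  have hle : N ≤ N ⊔ T := le_sup_left
  obtain ⟨g, hg, hg'⟩ := hS (N ⊔ T) (factor hle ∘ₗ h) fun x => by
    obtain ⟨y, hy, hyx⟩ := hh x
    obtain ⟨s, hs, t, ht, rfl⟩ := mem_sup.1 hy
    refine ⟨s, hs, ?_⟩
    rw [LinearMap.comp_apply, ← hyx, factor_mk, mkQ_apply, mkQ_apply, Submodule.Quotient.eq]
    simpa using mem_sup_right ht
  obtain ⟨k, hk, hk'⟩ := hT N (h - N.mkQ ∘ₗ g) fun x => by
    obtain ⟨y, hy⟩ := mkQ_surjective N (h x)
    have h1 := hg' x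
    rw [LinearMap.comp_apply, ← hy, factor_mk, mkQ_apply, mkQ_apply, eq_comm,
      Submodule.Quotient.eq] at h1
    obtain ⟨n, hn, t, ht, h2⟩ := mem_sup.1 h1
    refine ⟨t, ht, ?_⟩
    rw [LinearMap.sub_apply, LinearMap.comp_apply, ← hy, ← map_sub, ← h2, map_add, mkQ_apply N n,
      (Quotient.mk_eq_zero N).2 hn, zero_add]
  exact ⟨g + k, fun x => add_mem_sup (hg x) (hk x), fun x => by
    rw [LinearMap.add_apply, map_add, hk']; simp⟩

theorem AutLiftable.lp_range (hM : AutLiftable R M) {A B : Submodule R M} (hAB : IsCompl A B)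
    (f : B →ₗ[R] M) : LP A (LinearMap.range f) := by
  intro N h hh
  obtain ⟨g, hg⟩ := hM.mutual hAB (N.mkQ ∘ₗ f) h fun x => by
    rw [LinearMap.range_comp]; exact hh x
  exact ⟨f ∘ₗ g, fun x => ⟨_, rfl⟩, hg⟩

theorem dv_of_isCompl (hD : Dv (⊤ : Submodule R M)) {A B : Submodule R M} (hAB : IsCompl A B) :
    Dv A := by
  have := hD.range (A.subtype ∘ₗ projectionOnto A B hAB)
  rwa [LinearMap.range_comp_of_range_eq_top _ (range_projectionOnto hAB), range_subtype] at this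

variable [G : Good.{u, w} R]
include G

/-- finite rank -/
def FR (R : Type u) [Ring R] [Good.{u, w} R] (M : Type*) [AddCommGroup M] [Module R M] : Prop :=
  ∃ X : Submodule R M, X.FG ∧ ∀ x, x ∈ cl X

theorem FR.of_isCompl (h : FR R M) {A B : Submodule R M} (hAB : IsCompl A B) : FR R A := by
  obtain ⟨X, hX, h⟩ := h
  refine ⟨X.map (projectionOnto A B hAB), hX.map _, fun x => ?_⟩
  rw [← projectionOnto_apply_left hAB x]
  exact apply_mem_cl _ (h _)

theorem exists_fg_tf {N : Submodule R M} (hN : TF R (M ⧸ N)) {x : M} (hx : x ∉ N) :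
    ∃ X : Submodule R M, X.FG ∧ TF R X ∧ X ≠ ⊥ ∧ Disjoint X N := by
  let W := span R {N.mkQ x}
  have : Module.Finite R W := Module.Finite.iff_fg.2 (fg_span_singleton _)
  have := projective_of_tf (hN.sub W)
  obtain ⟨s, hs⟩ := proj_lift N.mkQ W.subtype fun y => mkQ_surjective N _
  have hs' : Injective s := fun a b h => Subtype.ext (by
    rw [← subtype_apply, ← subtype_apply, ← hs, ← hs, h])
  refine ⟨LinearMap.range s, fg_range s, (hN.sub W).of_injective _
    (LinearEquiv.ofInjective s hs').symm.injective, fun h => hx ?_,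
    Submodule.disjoint_def.2 ?_⟩
  · have h1 : s ⟨_, mem_span_singleton_self _⟩ = 0 :=
      (mem_bot R).1 (h ▸ LinearMap.mem_range_self s _)
    have h2 := hs ⟨_, mem_span_singleton_self _⟩
    rw [h1, map_zero] at h2
    exact (Quotient.mk_eq_zero N).1 h2.symm
  · rintro _ ⟨y, rfl⟩ hy
    have : y = 0 := Subtype.ext ((hs y).symm.trans ((Quotient.mk_eq_zero N).2 hy))
    rw [this, map_zero]

theorem exists_hom_tf (hM : TF R M) (hC : TF R C) {x : M} (hx : x ≠ 0) {Y : Submodule R C}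
    (hY : Dv Y) (hY0 : Y ≠ ⊥) : ∃ f : M →ₗ[R] C, f ≠ 0 ∧ ∀ z, f z ∈ Y := by
  let W := span R {x}
  have : Module.Finite R W := Module.Finite.iff_fg.2 (fg_span_singleton _)
  obtain ⟨l, hl⟩ := exists_hom_of_tf (hM.sub W) (x := ⟨x, mem_span_singleton_self x⟩)
    fun h => hx (congrArg Subtype.val h)
  obtain ⟨y, hy, hly⟩ : ∃ y ∈ Y, l ⟨x, mem_span_singleton_self x⟩ • y ≠ 0 := by
    by_contra hn
    push Not at hn
    let J : Ideal R :=
      { carrier := {a | ∀ y ∈ Y, a • y = 0}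
        add_mem' := fun ha hb y hy => by rw [add_smul, ha y hy, hb y hy, add_zero]
        zero_mem' := fun y _ => zero_smul _ _
        smul_mem' := fun c a ha y hy => by rw [smul_eq_mul, mul_smul, ha y hy, smul_zero] }
    have hJ : NZ J := ⟨⟨fun {a} c ha y hy => by rw [mul_smul]; exact ha _ (Y.smul_mem c hy)⟩,
      (Submodule.ne_bot_iff _).2 ⟨_, hn, hl⟩⟩
    exact hY0 (eq_bot_iff.2 fun y hy => hC y J hJ fun a ha => ha y hy)
  obtain ⟨k, hk, hk'⟩ := hY.ext W.subtype W.injective_subtype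
    (LinearMap.toSpanSingleton R C y ∘ₗ l) fun a => Y.smul_mem _ hy
  exact ⟨k, fun h => hly ((hk' _).symm.trans (by rw [h]; rfl)), hk⟩

theorem AutLiftable.lp_top (hM : AutLiftable R M) (hD : Dv (⊤ : Submodule R M)) (hT : TF R M)
    (hF : FR R M) {A B : Submodule R M} (hAB : IsCompl A B) (hB : B ≠ ⊥) :
    LP A (⊤ : Submodule R M) := by
  classical
  have hBD : Dv (⊤ : Submodule R B) := dv_top_iff.2 (dv_of_isCompl hD hAB.symm)
  have h1 : ⨆ f : B →ₗ[R] M, LinearMap.range f = ⊤ := by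
    obtain ⟨S, hS⟩ := (Dv.iSup fun f : B →ₗ[R] M => hBD.range f).isCompl
    by_contra hne
    have : Nontrivial B := nontrivial_iff_ne_bot.2 hB
    obtain ⟨b, hb⟩ := exists_ne (0 : B)
    obtain ⟨f, hf, hf'⟩ := exists_hom_tf (hT.sub B) hT hb (dv_of_isCompl hD hS.symm)
      fun h => hne (eq_top_of_isCompl_bot (h ▸ hS))
    exact hf (LinearMap.ext fun z => Submodule.disjoint_def.1 hS.disjoint _
      (mem_iSup_of_mem f ⟨z, rfl⟩) (hf' z))
  obtain ⟨X, hX, hcl⟩ := hF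
  obtain ⟨s, hs⟩ := FG.exists_finset hX (fun f : B →ₗ[R] M => LinearMap.range f) (h1 ▸ le_top)
  have h2 : Dv (⨆ f ∈ s, LinearMap.range f) := Dv.iSup fun f => Dv.iSup fun _ => hBD.range f
  have h3 : ⨆ f ∈ s, LinearMap.range f = ⊤ := eq_top_iff.2 fun x _ => by
    obtain ⟨I, hI, hx⟩ := hcl x
    have := hI.cancel (⨆ f ∈ s, LinearMap.range f) ⊥
      (col_mono le_rfl (hs.trans ((h2 I hI).trans le_sup_left)) hx)
    rwa [hT.col_bot hI, sup_bot_eq] at this
  rw [← h3]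
  clear hs h2 h3
  induction s using Finset.induction_on with
  | empty => simpa using LP.bot
  | insert f s _ ih => rw [Finset.iSup_insert]; exact (hM.lp_range hAB f).sup ih

theorem AutLiftable.el_of_tf_dv (hM : AutLiftable R M) (hD : Dv (⊤ : Submodule R M)) (hT : TF R M)
    (hF : FR R M) : EndLiftable R M := by
  by_cases h : Ind R M
  · exact hM.el_of_ind hD h
  simp only [Ind, not_forall, not_or] at h
  obtain ⟨B, hB, hB0, hB1⟩ := h
  obtain ⟨A, hA⟩ := hB.isCompl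
  have key : ∀ {A B : Submodule R M}, IsCompl A B → B ≠ ⊥ → ∀ (N : Submodule R M)
      (e : (M ⧸ N) →ₗ[R] M ⧸ N), ∃ f : A →ₗ[R] M, ∀ x, N.mkQ (f x) = e (N.mkQ x) :=
    fun {A B} hAB hB N e => (hM.lp_top hD hT hF hAB hB N (e ∘ₗ N.mkQ ∘ₗ A.subtype) fun x => by
      rw [Submodule.map_top, range_mkQ]; exact mem_top).imp fun _ h => h.2
  exact el_of_isCompl hA (key hA fun h => hB1 (eq_top_of_isCompl_bot (h ▸ hA))) (key hA.symm hB0)

theorem IsMx.exists_not_mem_smul {P : Ideal R} (hP : IsMx P) {X : Submodule R M} (hX : X.FG)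
    (hT : TF R X) (h0 : X ≠ ⊥) : ∃ x ∈ X, x ∉ P • X := by
  have : Module.Finite R X := Module.Finite.iff_fg.2 hX
  have := projective_of_tf hT
  exact SetLike.not_le_iff_exists.1 fun h => h0 (hP.eq_bot_of_le_smul le_rfl h)

theorem AutLiftable.el_of_dv (hM : AutLiftable R M) (hD : Dv (⊤ : Submodule R M)) (hF : FR R M) :
    EndLiftable R M := by
  by_cases hT : TF R M
  · exact hM.el_of_tf_dv hD hT hF
  have h1 := hD.cl (X := ⊥)
  rw [top_inf_eq] at h1
  obtain ⟨D, hTD⟩ := h1.isCompl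
  by_cases hD0 : D = ⊥
  · exact hM.el_of_torsion fun x => eq_top_of_isCompl_bot (hD0 ▸ hTD) ▸ mem_top
  exfalso
  simp only [TF, not_forall] at hT
  obtain ⟨x, I, hI, hx, hx0⟩ := hT
  have := hI.1
  obtain ⟨P, hP, y, -, hy0, hy⟩ := exists_mx_of_killed hI x hx0 (mem_col.2 hx)
  have := hP.1.1
  have hDT : TF R D := tf_of_disjoint hTD.disjoint.symm
  have : Nontrivial D := nontrivial_iff_ne_bot.2 hD0
  obtain ⟨d, hd⟩ := exists_ne (0 : D)
  obtain ⟨z, hz, hz'⟩ := hP.exists_not_mem_smul (fg_span_singleton d) (hDT.sub _)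
    (by simpa using hd)
  have h2 := hM.no_tors hP hDT (P • span R {d}).mkQ
    ((dv_top_iff.2 (dv_of_isCompl hD hTD.symm)).range _) le_rfl ⟨z, rfl⟩
    (mt (Quotient.mk_eq_zero _).1 hz') (mem_col.2 fun a ha => by
      rw [← map_smul]; exact (Quotient.mk_eq_zero _).2 (smul_mem_smul ha hz))
  exact hy0 ((mem_bot R).1 (h2 ▸ hy))

theorem AutLiftable.dv_ker (hM : AutLiftable R M) {X : Submodule R M} (hX : X.FG) (hT : TF R X)
    (h0 : X ≠ ⊥) {Z W : Submodule R M} (hZW : IsCompl Z W)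
    (hZ : ∀ x ∈ Z, ∀ f : M →ₗ[R] R, f x = 0) : Dv Z := by
  refine dv_of_mx fun P hP => ?_
  by_contra hn
  have := hP.1.1
  have := G.noeth
  have : IsNoetherian R X := isNoetherian_of_fg_of_noetherian _ hX
  have hK : (P • X).FG := hX.of_le smul_le_right
  have hKT : TF R (P • X : Submodule R M) :=
    hT.of_injective (inclusion smul_le_right) (inclusion_injective _)
  have hK0 : P • X ≠ ⊥ := fun h => h0 (eq_bot_iff.2 fun x hx => congrArg Subtype.val
    (hT ⟨x, hx⟩ P hP.1 fun a ha => Subtype.ext (h.le (smul_mem_smul ha hx))))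
  obtain ⟨b, hb, hb'⟩ := hP.exists_not_mem_smul hK hKT hK0
  let L := P • P • X
  obtain ⟨f, hf, hf'⟩ := hP.exists_hom (M := Z) (mt top_le_smul_iff.1 hn) (b := L.mkQ b)
    (mt (Quotient.mk_eq_zero _).1 hb') (mem_col.2 fun a ha => by
      rw [← map_smul]; exact (Quotient.mk_eq_zero _).2 (smul_mem_smul ha hb))
  have hbP : span R {L.mkQ b} ≤ col P ⊥ := (span_singleton_le_iff_mem _ _).2
    (mem_col.2 fun a ha => by
      rw [← map_smul]; exact (Quotient.mk_eq_zero _).2 (smul_mem_smul ha hb))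
  obtain ⟨g, hg⟩ := hM.sq (P • X) (L.mkQ ∘ₗ (P • X).subtype) (f ∘ₗ projectionOnto Z W hZW)
    (fun x hx => by
      refine smul_induction_on hx (fun a ha y _ => ?_) fun y z hy hz => ?_
      · rw [map_smul]; exact mem_col.1 (hbP (hf' _)) a ha
      · rw [map_add, hy, hz, add_zero])
    fun x => (span_singleton_le_iff_mem _ _).2
      (show L.mkQ b ∈ LinearMap.range (L.mkQ ∘ₗ (P • X).subtype) from ⟨⟨b, hb⟩, rfl⟩) (hf' _)
  refine hf (LinearMap.ext fun z => ?_)
  have : Module.Finite R (P • X : Submodule R M) := Module.Finite.iff_fg.2 hK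
  have h1 : g z = 0 := by
    by_contra h
    obtain ⟨l, hl⟩ := exists_hom_of_tf hKT h
    exact hl (hZ z z.2 (l ∘ₗ g))
  have h2 := hg z
  rw [h1, map_zero, LinearMap.comp_apply, projectionOnto_apply_left] at h2
  exact h2.symm

theorem AutLiftable.el_of_fr (hM : AutLiftable R M) (hF : FR R M) : EndLiftable R M := by
  by_cases hT : ∀ x, x ∈ cl (⊥ : Submodule R M)
  · exact hM.el_of_torsion hT
  push Not at hT
  obtain ⟨x, hx⟩ := hT
  obtain ⟨X, hX, hXT, hX0, -⟩ := exists_fg_tf (tf_quot_cl ⊥) hx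
  obtain ⟨t, F, hF'⟩ := hF.elim fun X h => fin_emb h.1 h.2
  have := G.noeth
  have : Module.Projective R (LinearMap.range F) :=
    projective_of_injective _ (injective_subtype _)
  obtain ⟨s, hs⟩ := proj_lift F (LinearMap.range F).subtype fun y => y.2
  have hs' : Injective s := fun a b h => Subtype.ext (by
    rw [← subtype_apply, ← subtype_apply, ← hs, ← hs, h])
  have hZW : IsCompl (LinearMap.ker F) (LinearMap.range s) := ⟨Submodule.disjoint_def.2 (by
      rintro _ hy ⟨y, rfl⟩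
      have : y = 0 := Subtype.ext ((hs y).symm.trans hy)
      rw [this, map_zero]),
    codisjoint_iff.2 (eq_top_iff.2 fun y _ => mem_sup.2 ⟨y - s ⟨F y, y, rfl⟩, by
      rw [LinearMap.mem_ker, map_sub, hs]; exact sub_self _, _, ⟨_, rfl⟩, sub_add_cancel _ _⟩)⟩
  have hZ := hM.dv_ker hX hXT hX0 hZW hF'
  have hE := (hM.of_isCompl hZW).el_of_dv (dv_top_iff.2 hZ) (hF.of_isCompl hZW)
  have : Module.Projective R (LinearMap.range s) :=
    Module.Projective.of_equiv' (LinearEquiv.ofInjective s hs')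
  refine el_of_isCompl hZW (fun N e => hE.piece _ _ fun z hz => ?_) fun N e =>
    proj_lift N.mkQ (e ∘ₗ N.mkQ ∘ₗ (LinearMap.range s).subtype) fun y => mkQ_surjective N _
  let L := (LinearMap.ker F).map N.mkQ
  have hfin : Module.Finite R ((M ⧸ N) ⧸ L) := by
    refine Module.Finite.of_surjective (L.mkQ ∘ₗ N.mkQ ∘ₗ s) fun y => ?_
    obtain ⟨y, rfl⟩ := mkQ_surjective L y
    obtain ⟨y, rfl⟩ := mkQ_surjective N y
    obtain ⟨a, ha, _, ⟨b, rfl⟩, rfl⟩ := mem_sup.1 (hZW.sup_eq_top ▸ mem_top : y ∈ _)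
    refine ⟨b, ?_⟩
    rw [map_add, map_add, mkQ_apply L (N.mkQ a), (Quotient.mk_eq_zero L).2 (mem_map_of_mem ha),
      zero_add]
    rfl
  have h1 := fg_dv_eq_bot (IsNoetherian.noetherian _) (hZ.map (L.mkQ ∘ₗ e ∘ₗ N.mkQ))
  exact (Quotient.mk_eq_zero L).1 ((Submodule.eq_bot_iff _).1 h1 _ (mem_map_of_mem hz))

theorem AutLiftable.endLiftable (hM : AutLiftable R M) : EndLiftable R M := by
  obtain ⟨s, hs, hs1, hs2⟩ := exists_max_indep fun X : Submodule R M => X.FG ∧ TF R X ∧ X ≠ ⊥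
  have hcl : ∀ x, x ∈ cl (sSup s) := fun x => by
    by_contra hx
    obtain ⟨X, h1, h2, h3, h4⟩ := exists_fg_tf (tf_quot_cl _) hx
    exact h3 (hs2 X ⟨h1, h2, h3⟩ (h4.mono_right le_cl))
  rw [sSup_eq_iSup'] at hcl
  rcases finite_or_infinite s with h | h
  · exact hM.el_of_fr ⟨_, fg_iSup _ fun X : s => (hs1 X X.2).1, hcl⟩
  · have := AutLiftable.projective_of_infinite ((sSupIndep_iff s).1 hs) (fun X => (hs1 X X.2).1)
      (fun X => (hs1 X X.2).2.1) (fun X => (hs1 X X.2).2.2) hM hcl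
    exact endLiftable_of_projective

end Pool.Agent.MP_181731_al
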