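import Pool.Agent.MP_181731_al.Fin

namespace Pool.Agent.MP_181731_al

open Function Submodule

universe u v w

variable {R : Type u} [Ring R]

theorem exists_isCompl_ker {M C : Type*} [AddCommGroup M] [Module R M] [AddCommGroup C]
    [Module R C] (F : M →ₗ[R] C) [Module.Projective R (LinearMap.range F)] :
    ∃ U, IsCompl (LinearMap.ker F) U := by
  obtain ⟨s, hs⟩ := proj_lift F (LinearMap.range F).subtype fun y => y.2
  exact ⟨LinearMap.range s, Submodule.disjoint_def.2 (by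
      rintro _ hy ⟨y, rfl⟩
      have : y = 0 := Subtype.ext ((hs y).symm.trans hy)
      rw [this, map_zero]),
    codisjoint_iff.2 (eq_top_iff.2 fun y _ => mem_sup.2 ⟨y - s ⟨F y, y, rfl⟩, by
      rw [LinearMap.mem_ker, map_sub, hs]; exact sub_self _, _, ⟨_, rfl⟩, sub_add_cancel _ _⟩)⟩

/-- an essential left ideal contains a regular element -/
theorem exists_regular [IsNoetherianRing R] (hR : IsNoetherian Rᵐᵒᵖ R)
    (hp : ∀ a b : R, (∀ x : R, a * x * b = 0) → a = 0 ∨ b = 0)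
    (hh : ∀ L : Ideal R, Module.Projective R L) (E : Ideal R)
    (hE : ∀ U : Ideal R, Disjoint U E → U = ⊥) : ∃ c ∈ E, c ∈ nonZeroDivisors R := by
  let rl : R → Submodule Rᵐᵒᵖ R := fun c =>
    { carrier := {y | ∀ x, x * c = 0 → x * y = 0}
      add_mem' := fun ha hb x hx => by rw [mul_add, ha x hx, hb x hx, add_zero]
      zero_mem' := fun x _ => mul_zero x
      smul_mem' := fun s y hy x hx => by
        rw [MulOpposite.smul_eq_mul_unop, ← mul_assoc, hy x hx, zero_mul] }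
  obtain ⟨_, ⟨c, hc, rfl⟩, hmax⟩ := set_has_maximal_iff_noetherian.2 hR (rl '' E)
    ⟨_, 0, E.zero_mem, rfl⟩
  have key : ∀ u ∈ E, (∀ x, x * (c + u) = 0 → x * c = 0) → ∀ x, x * c = 0 → x * u = 0 := by
    intro u hu h x hx
    have h1 : rl c ≤ rl (c + u) := fun y hy z hz => hy z (h z hz)
    have h2 : rl (c + u) ≤ rl c :=
      (eq_of_le_of_not_lt h1 (hmax _ ⟨_, add_mem hc hu, rfl⟩)).ge
    have := h2 (fun z hz => hz : c + u ∈ rl (c + u)) x hx
    rwa [mul_add, hx, zero_add] at this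
  let ρ : R → R →ₗ[R] R := fun c => LinearMap.toSpanSingleton R R c
  have hρ : ∀ y, ∃ U, IsCompl (LinearMap.ker (ρ y)) U := fun y =>
    have := hh (LinearMap.range (ρ y))
    exists_isCompl_ker _
  have step1 : ∀ x, x * c = 0 → x = 0 := by
    intro x hx
    by_contra hx0
    have ess : ∀ y : R, y ≠ 0 → ∃ r z : R, r * y = z * c ∧ z * c ≠ 0 := by
      intro y hy
      by_contra hn
      push Not at hn
      have h1 : ¬ Disjoint (Ideal.span {y}) E := fun h => hy (by simpa using hE _ h)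
      rw [Submodule.disjoint_def] at h1
      push Not at h1
      obtain ⟨u, hu, huE, hu0⟩ := h1
      obtain ⟨r, rfl⟩ := Ideal.mem_span_singleton'.1 hu
      refine (hp x (r * y) fun s => ?_).elim hx0 hu0
      rw [mul_assoc]
      refine key _ (E.mul_mem_left s huE) (fun z hz => hn (-(z * s * r)) z ?_) x hx
      rw [mul_add, add_eq_zero_iff_eq_neg] at hz
      rw [hz]
      simp only [neg_mul, mul_assoc]
    obtain ⟨U, hU⟩ := hρ c
    have essn : ∀ (n : ℕ) (y : R), y ≠ 0 →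
        ∃ r : R, r * y ≠ 0 ∧ r * y ∈ LinearMap.range (ρ c ^ n) := by
      intro n
      induction n with
      | zero => exact fun y hy => ⟨1, by rwa [one_mul], _, rfl⟩
      | succ n ih =>
        intro y hy
        obtain ⟨r, z, hr, hz⟩ := ess y hy
        obtain ⟨a, ha, b, hb, rfl⟩ := mem_sup.1 (hU.sup_eq_top ▸ mem_top : z ∈ _)
        have ha' : a * c = 0 := ha
        rw [add_mul, ha', zero_add] at hr hz
        obtain ⟨s, hs, t, ht⟩ := ih b (by rintro rfl; exact hz (zero_mul c))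
        refine ⟨s * r, fun h => hs (Submodule.disjoint_def.1 hU.disjoint _ ?_
          (U.smul_mem s hb)), t, ?_⟩
        · rw [mul_assoc, hr, ← mul_assoc] at h
          exact h
        · rw [pow_succ', Module.End.mul_apply, ht, mul_assoc s r, hr, ← mul_assoc]
          rfl
    obtain ⟨n, hn⟩ := Filter.eventually_atTop.1
      (Module.End.eventually_disjoint_ker_pow_range_pow (ρ c))
    obtain ⟨r, hr, hr'⟩ := essn (n + 1) x hx0
    refine hr (Submodule.disjoint_def.1 (hn (n + 1) (Nat.le_succ n)) _ ?_ hr')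
    have : ρ c (r * x) = 0 := (mul_assoc r x c).trans (by rw [hx, mul_zero])
    rw [LinearMap.mem_ker, pow_succ, Module.End.mul_apply, this, map_zero]
  refine ⟨c, hc, fun y hy => ?_, step1⟩
  obtain ⟨U, hU⟩ := hρ y
  have := IsNoetherian.subsingleton_of_prod_injective ((ρ c).coprod U.subtype)
    ((injective_iff_map_eq_zero _).2 fun ⟨x, u⟩ h => by
      have h1 : x * c + u = 0 := h
      have h2 : (u : R) = 0 := Submodule.disjoint_def.1 hU.disjoint _ (by
        rw [eq_neg_of_add_eq_zero_right h1]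
        exact neg_mem ((mul_assoc x c y).trans (by rw [hy, mul_zero]))) u.2
      rw [h2, add_zero] at h1
      exact Prod.ext (step1 x h1) (Subtype.ext h2))
  have h3 : U = ⊥ := subsingleton_iff_eq_bot.1 this
  have h4 : (1 : R) ∈ LinearMap.ker (ρ y) := eq_top_of_isCompl_bot (h3 ▸ hU) ▸ mem_top
  simpa [ρ] using h4

theorem semisimple_of_fractions [IsNoetherianRing R] (hR : IsNoetherian Rᵐᵒᵖ R)
    (hp : ∀ a b : R, (∀ x : R, a * x * b = 0) → a = 0 ∨ b = 0)
    (hh : ∀ L : Ideal R, Module.Projective R L) {Q : Type w} [Ring Q] {ι : R →+* Q}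
    (hu : ∀ c ∈ nonZeroDivisors R, IsUnit (ι c))
    (hl : ∀ q : Q, ∃ c a : R, IsUnit (ι c) ∧ ι c * q = ι a) : IsSemisimpleRing Q := by
  refine (isSemisimpleModule_iff _ _).2 ⟨fun J => ?_⟩
  let L : Ideal R := Ideal.comap ι J
  obtain ⟨K, -, hK, hmax⟩ := exists_max_disjoint (disjoint_bot_left : Disjoint ⊥ L)
  obtain ⟨c, hc, hc'⟩ := exists_regular hR hp hh (K ⊔ L) fun U hU =>
    hU.eq_bot_of_le ((le_sup_left.trans (hmax (U ⊔ K) le_sup_right
      (hK.disjoint_sup_left_of_disjoint_sup_right hU))).trans le_sup_left)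
  refine ⟨Ideal.span (ι '' K), Submodule.disjoint_def.2 fun y hy hy' => ?_,
    codisjoint_iff.2 ((Ideal.eq_top_iff_one _).2 ?_)⟩
  · obtain ⟨d, b, hb, hd, hdb⟩ := span_frac_of_left hl K hy'
    have : b = 0 := Submodule.disjoint_def.1 hK b hb
      (show ι b ∈ J from hdb ▸ Ideal.mul_mem_left J _ hy)
    rw [this, map_zero] at hdb
    exact hd.mul_right_eq_zero.1 hdb
  · obtain ⟨a, ha, b, hb, rfl⟩ := mem_sup.1 hc
    obtain ⟨v, hv⟩ := hu _ hc'
    rw [← v.inv_mul, hv, map_add]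
    exact Ideal.mul_mem_left _ _
      (add_mem (mem_sup_right (Ideal.subset_span ⟨a, ha, rfl⟩)) (mem_sup_left hb))

theorem IsDedekindPrime.setup {A : Type u} {Q : Type w} [Ring A] [Ring Q] {ι : A →+* Q}
    (h : IsDedekindPrime ι) (hA : ¬ Primitive Aᵐᵒᵖ) : Setup (RingHom.op ι) := by
  have := h.nontrivial
  have := h.leftNoetherian
  have := h.rightNoetherian
  have hR : IsNoetherian Aᵐᵒᵖᵐᵒᵖ Aᵐᵒᵖ := by
    have : IsNoetherianRing Aᵐᵒᵖᵐᵒᵖ := isNoetherianRing_of_ringEquiv A (RingEquiv.opOp A)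
    exact isNoetherian_of_linearEquiv (MulOpposite.opLinearEquiv Aᵐᵒᵖᵐᵒᵖ (M := Aᵐᵒᵖ)).symm
  have hu : ∀ c ∈ nonZeroDivisors A, IsUnit (RingHom.op ι (MulOpposite.op c)) := fun c hc =>
    (h.fractions.isUnit c hc).op
  have hl : ∀ q : Qᵐᵒᵖ, ∃ c a : Aᵐᵒᵖ, IsUnit (RingHom.op ι c) ∧
      RingHom.op ι c * q = RingHom.op ι a := fun q => by
    obtain ⟨a, c, hc, hq⟩ := h.fractions.right q.unop
    exact ⟨.op c, .op a, hu c hc, congrArg MulOpposite.op hq⟩
  refine ⟨inferInstance, inferInstance, hR, h.rightHereditary,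
    fun a b hab => MulOpposite.unop_injective (h.fractions.injective (congrArg MulOpposite.unop hab)),
    semisimple_of_fractions hR (fun a b hab => ?_) h.rightHereditary (fun c hc => ?_) hl, hl,
    fun q => ?_, fun I hI => ?_, fun m hm => ?_⟩
  · refine (h.prime b.unop a.unop fun x => ?_).symm.imp (MulOpposite.unop_eq_zero_iff _).1
      (MulOpposite.unop_eq_zero_iff _).1
    simpa [mul_assoc] using congrArg MulOpposite.unop (hab (.op x))
  · exact hu c.unop ⟨fun x hx => MulOpposite.op_injective (hc.2 (.op x) (congrArg MulOpposite.op hx)),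
      fun x hx => MulOpposite.op_injective (hc.1 (.op x) (congrArg MulOpposite.op hx))⟩
  · obtain ⟨a, c, hc, hq⟩ := h.fractions.left q.unop
    exact ⟨.op c, .op a, hu c hc, congrArg MulOpposite.op hq⟩
  · have := hI.1
    let B : TwoSidedIdeal A := I.toTwoSided.unop
    have hB : ∀ a : A, a ∈ B ↔ MulOpposite.op a ∈ I := fun a => by
      simp [B, TwoSidedIdeal.mem_unop_iff]
    obtain ⟨C, -, h1, h2⟩ := h.invertible B fun h0 => hI.2 (eq_bot_iff.2 fun a ha => by
      have : a.unop ∈ B := (hB _).2 ha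
      rw [h0, TwoSidedIdeal.mem_bot] at this
      exact (MulOpposite.unop_eq_zero_iff _).1 this)
    have tr : ∀ {s : Set Q} {t : Set Qᵐᵒᵖ}, (∀ x ∈ s, MulOpposite.op x ∈ t) →
        AddSubgroup.closure s = ι.range.toAddSubgroup → (1 : Qᵐᵒᵖ) ∈ AddSubgroup.closure t := by
      intro s t hst hs
      have h3 : AddSubgroup.closure s ≤ (AddSubgroup.closure t).comap
          (MulOpposite.opAddEquiv : Q ≃+ Qᵐᵒᵖ).toAddMonoidHom :=
        (AddSubgroup.closure_le _).2 fun x hx => AddSubgroup.subset_closure (hst x hx)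
      exact h3 (hs ▸ (one_mem ι.range : (1 : Q) ∈ ι.range.toAddSubgroup))
    refine ⟨C.comap (MulOpposite.opAddEquiv : Q ≃+ Qᵐᵒᵖ).symm.toAddMonoidHom,
      fun q hq a ha => ⟨?_, ?_⟩, tr ?_ h1, tr ?_ h2⟩
    · obtain ⟨r, hr⟩ : ι a.unop * q.unop ∈ ι.range.toAddSubgroup :=
        h1 ▸ AddSubgroup.subset_closure (Set.mul_mem_mul ⟨_, (hB _).2 ha, rfl⟩ hq)
      exact ⟨.op r, congrArg MulOpposite.op hr⟩
    · obtain ⟨r, hr⟩ : q.unop * ι a.unop ∈ ι.range.toAddSubgroup :=
        h2 ▸ AddSubgroup.subset_closure (Set.mul_mem_mul hq ⟨_, (hB _).2 ha, rfl⟩)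
      exact ⟨.op r, congrArg MulOpposite.op hr⟩
    · rintro _ ⟨_, ⟨a, ha, rfl⟩, q, hq, rfl⟩
      exact ⟨.op q, hq, _, ⟨.op a, (hB a).1 ha, rfl⟩, rfl⟩
    · rintro _ ⟨q, hq, _, ⟨a, ha, rfl⟩, rfl⟩
      exact ⟨_, ⟨.op a, (hB a).1 ha, rfl⟩, .op q, hq, rfl⟩
  · refine ⟨Module.annihilator Aᵐᵒᵖ (Aᵐᵒᵖ ⧸ m), ⟨inferInstance, fun h0 => hA
      ⟨Aᵐᵒᵖ ⧸ m, inferInstance, inferInstance, isSimpleModule_iff_isCoatom.2 hm.out,
        Module.annihilator_eq_bot.1 h0⟩⟩, fun a ha => ?_⟩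
    have := Module.mem_annihilator.1 ha (Submodule.Quotient.mk 1)
    rwa [← Submodule.Quotient.mk_smul, Quotient.mk_eq_zero, smul_eq_mul, mul_one] at this

end Pool.Agent.MP_181731_al
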