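import Pool.Agent.MP_181731_al.Tors

namespace Pool.Agent.MP_181731_al

open Function Submodule

universe u v w

variable {R : Type u} [Ring R]
variable {M : Type*} [AddCommGroup M] [Module R M] {C : Type*} [AddCommGroup C] [Module R C]

theorem exists_fibres (κ : Type*) [Infinite κ] :
    ∃ c : κ → κ × ℕ, ∀ l, (c ⁻¹' {l}).Infinite := by
  have h : Cardinal.mk κ = Cardinal.mk ((κ × ℕ) × ℕ) := by
    have := Cardinal.aleph0_le_mk κ
    simp [Cardinal.mul_aleph0_eq this]
  obtain ⟨e⟩ := Cardinal.eq.1 h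
  refine ⟨fun i => (e i).1, fun l => Set.infinite_of_injective_forall_mem
    (f := fun n : ℕ => e.symm (l, n)) (fun m n h => by simpa using h) fun n => by simp⟩

theorem FG.exists_finset {ι : Type*} {X : Submodule R M} (hX : X.FG) (f : ι → Submodule R M)
    (h : X ≤ ⨆ i, f i) : ∃ s : Finset ι, X ≤ ⨆ i ∈ s, f i :=
  CompleteLattice.IsCompactElement.exists_finset_of_le_iSup _ ((fg_iff_compact X).1 hX) f h

variable [G : Good.{u, w} R]
include G

theorem AutLiftable.no_tors (hM : AutLiftable R M) {P : Ideal R} (hP : IsMx P)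
    {K : Submodule R M} (hK : TF R K) (q : K →ₗ[R] C) {Y : Submodule R C} (hY : Dv Y)
    (hYq : Y ≤ LinearMap.range q) {y : C} (hy : y ∈ Y) (hy0 : y ≠ 0)
    (hyP : y ∈ col P (⊥ : Submodule R C)) : col P (⊥ : Submodule R M) = ⊥ := by
  have := hP.1.1
  by_contra hne
  obtain ⟨t, ht, ht0⟩ := (Submodule.ne_bot_iff _).1 hne
  obtain ⟨k, hk, _, ⟨s, hs, rfl⟩, hks⟩ := hP.hom_ext
    (A := (col P (⊥ : Submodule R M)).map K.mkQ) ((Submodule.ne_bot_iff _).2
      ⟨_, mem_map_of_mem ht, fun h => ht0 (congrArg Subtype.val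
        (hK ⟨t, (Quotient.mk_eq_zero K).1 h⟩ P hP.1
          fun a ha => Subtype.ext (mem_col.1 ht a ha)))⟩)
    (by rintro _ ⟨x, hx, rfl⟩; exact apply_mem_col _ hx) hY hy hy0 hyP
  obtain ⟨g, hg⟩ := hM.sq K q (k ∘ₗ K.mkQ)
    (fun x hx => by rw [LinearMap.comp_apply, mkQ_apply, (Quotient.mk_eq_zero _).2 hx, map_zero])
    fun x => hYq (hk _)
  refine hks ((hg s).symm.trans ?_)
  rw [hK.apply_eq_zero g (col_le_cl hP.1 hs), map_zero]

theorem fg_col (h : TF R M) {X : Submodule R M} (hX : X.FG) {I : Ideal R} (hI : NZ I) :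
    (col I X).FG := by
  have := G.noeth
  have : IsNoetherian R X := isNoetherian_of_fg_of_noetherian _ hX
  obtain ⟨s, hs⟩ := FG.exists_finset (hX.of_le smul_col_le)
    (fun x : col I X => I • span R {(x : M)})
    (smul_le.2 fun a ha x hx =>
      mem_iSup_of_mem ⟨x, hx⟩ (smul_mem_smul ha (mem_span_singleton_self x)))
  have h1 : I • col I X ≤ I • ⨆ x ∈ s, span R {(x : M)} :=
    hs.trans (iSup₂_le fun x hx => smul_mono le_rfl
      (le_iSup₂_of_le (f := fun (x : col I X) (_ : x ∈ s) => span R {(x : M)}) x hx le_rfl))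
  have h2 := hI.le_of_smul_le h1
  rw [h.col_bot hI, sup_bot_eq] at h2
  have h3 : (⨆ x ∈ s, span R {(x : M)}).FG := fg_biSup _ _ fun x _ => fg_span_singleton _
  have : IsNoetherian R (⨆ x ∈ s, span R {(x : M)} : Submodule R M) :=
    isNoetherian_of_fg_of_noetherian _ h3
  exact h3.of_le h2

theorem IsMx.cover0 {P : Ideal R} (hP : IsMx P) {κ : Type*} (H : κ → Submodule R M)
    (hH : ∀ i, Module.Projective R (H i)) (hH0 : ∀ i, H i ≠ ⊥) [IsNoetherian R C]
    (hC : ∀ x, x ∈ pc P (⊥ : Submodule R C)) (U : Submodule R C) :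
    ∀ s : Set κ, s.Infinite → ∃ f : ∀ i, H i →ₗ[R] C, ⊤ ≤ U ⊔ ⨆ i ∈ s, LinearMap.range (f i) := by
  classical
  have := hP.1.1
  induction U using IsNoetherian.induction with
  | hgt U ih =>
    intro s hs
    by_cases hU : U = ⊤
    · exact ⟨fun _ => 0, hU ▸ le_sup_left⟩
    have : Nontrivial (C ⧸ U) := Submodule.Quotient.nontrivial_iff.2 hU
    obtain ⟨b, -, hb0, hb⟩ := exists_soc (P := P) (X := (⊤ : Submodule R (C ⧸ U))) top_ne_bot
      fun x _ => by
        obtain ⟨x, rfl⟩ := mkQ_surjective U x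
        exact apply_mem_pc _ (hC x)
    obtain ⟨i, hi⟩ := hs.nonempty
    have := hH i
    have : Nontrivial (H i) := nontrivial_iff_ne_bot.2 (hH0 i)
    obtain ⟨g, hg, -⟩ := hP.exists_hom (M := H i) hP.not_le_smul hb0 hb
    obtain ⟨f0, hf0⟩ := Module.projective_lifting_property U.mkQ g (mkQ_surjective U)
    obtain ⟨f, hf⟩ := ih (U ⊔ LinearMap.range f0) (lt_of_le_of_ne le_sup_left fun h => hg (by
      ext x
      rw [← hf0]
      exact (Quotient.mk_eq_zero U).2 (h ▸ mem_sup_right ⟨x, rfl⟩)))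
      (s \ {i}) (hs.sdiff (Set.finite_singleton i))
    refine ⟨Function.update f i f0, hf.trans ?_⟩
    rw [sup_assoc]
    refine sup_le_sup le_rfl (sup_le (le_iSup₂_of_le i hi (by simp)) (iSup₂_le fun j hj => ?_))
    exact le_iSup₂_of_le j hj.1 (by rw [Function.update_of_ne hj.2])

theorem IsMx.cover {P : Ideal R} (hP : IsMx P) {κ : Type*} (H : κ → Submodule R M)
    (hH : ∀ i, Module.Projective R (H i)) (hH0 : ∀ i, H i ≠ ⊥) {V : Submodule R C} (hV : V.FG)
    {n : ℕ} (hC : V ≤ col (P ^ n) ⊥) {s : Set κ} (hs : s.Infinite) :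
    ∃ f : ∀ i, H i →ₗ[R] C, V ≤ ⨆ i ∈ s, LinearMap.range (f i) := by
  have := G.noeth
  have := hP.1.1
  have : IsNoetherian R V := isNoetherian_of_fg_of_noetherian _ hV
  obtain ⟨f, hf⟩ := hP.cover0 (C := V) H hH hH0
    (fun x => mem_pc.2 ⟨n, fun a ha r => Subtype.ext (hC x.2 a ha r)⟩) ⊥ s hs
  refine ⟨fun i => V.subtype ∘ₗ f i, ?_⟩
  have := map_mono (f := V.subtype) hf
  rw [map_subtype_top, bot_sup_eq] at this
  refine this.trans ?_
  simp only [Submodule.map_iSup, LinearMap.range_comp, le_refl]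

theorem exists_hull_of_projective {X : Type v} [AddCommGroup X] [Module R X]
    (Y : Submodule R X) [Module.Projective R Y] :
    ∃ (D : Type (max v w)) (_ : AddCommGroup D) (_ : Module R D) (j : X →ₗ[R] D),
      (∀ x ∈ Y, j x = 0 → x = 0) ∧ Dv (⊤ : Submodule R D) ∧ TF R D := by
  obtain ⟨s, hs⟩ := Module.projective_def.1 (inferInstance : Module.Projective R Y)
  obtain ⟨D, _, _, j, hj, hdv, htf⟩ := exists_hull (R := R) Y
  obtain ⟨k, -, hk⟩ := hdv.ext Y.subtype Y.injective_subtype (j ∘ₗ s) fun _ => mem_top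
  refine ⟨D, inferInstance, inferInstance, k, fun x hx h => ?_, hdv, htf⟩
  have h1 : j (s ⟨x, hx⟩) = j (s 0) := by rw [map_zero, map_zero, ← h]; exact (hk ⟨x, hx⟩).symm
  exact congrArg Subtype.val (hs.injective (hj h1))

section
variable {X : Type v} [AddCommGroup X] [Module R X] {κ : Type*} [Infinite κ]
  {H : κ → Submodule R X} (hind : iSupIndep H) (hfg : ∀ i, (H i).FG) (htf : ∀ i, TF R (H i))
  (hne : ∀ i, H i ≠ ⊥)
include hind hfg htf

omit [Infinite κ] in
theorem projective_family : Module.Projective R (⨆ i, H i : Submodule R X) :=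
  projective_iSup hind fun i =>
    have : Module.Finite R (H i) := Module.Finite.iff_fg.2 (hfg i)
    projective_of_tf (htf i)

include hne

theorem IsMx.core {P : Ideal R} (hP : IsMx P) :
    ∃ (D : Type (max v w)) (_ : AddCommGroup D) (_ : Module R D) (Y : Submodule R D)
      (q : (P • ⨆ i, H i : Submodule R X) →ₗ[R] D) (h : X →ₗ[R] D),
      Dv Y ∧ Y ≤ LinearMap.range q ∧ (∀ x, h x ∈ Y) ∧
        ∀ x ∈ ⨆ i, H i, h x = 0 ↔ x ∈ P • ⨆ i, H i := by
  have := hP.1.1
  have := projective_family hind hfg htf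
  obtain ⟨D, _, _, j, hj, hdv, htD⟩ := exists_hull_of_projective (R := R) (⨆ i, H i)
  let N := (P • ⨆ i, H i).map j
  let V : κ × ℕ → Submodule R (D ⧸ N) := fun l => (col (P ^ l.2) ((H l.1).map j)).map N.mkQ
  have hV : ∀ l, V l ≤ col (P ^ (l.2 + 1)) ⊥ := fun l => by
    rw [le_col_iff, ← map_smul'', pow_succ_smul', map_le_iff_le_comap, comap_bot, ker_mkQ]
    refine (smul_mono le_rfl smul_col_le).trans ?_
    rw [← map_smul'']
    exact map_mono (smul_mono le_rfl (le_iSup H l.1))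
  have hY : Dv (⨆ l, V l) := by
    refine hP.dv_of_primary (iSup_le fun l => ?_) (iSup_le fun l => (hV l).trans
      (le_iSup (fun n => col (P ^ n) ⊥) (l.2 + 1)))
    have h1 : col (P ^ l.2) ((H l.1).map j) ≤ P • col (P ^ (l.2 + 1)) ((H l.1).map j) := by
      refine (hP.1.lemC (le_top.trans (hdv P hP.1))).trans ?_
      rw [top_inf_eq, ← col_mul, ← Submodule.pow_succ]
    refine (map_mono h1).trans ?_
    rw [map_smul'']
    exact smul_mono le_rfl (le_iSup V (l.1, l.2 + 1))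
  obtain ⟨c, hc⟩ := exists_fibres κ
  have hH : ∀ i, Module.Projective R (P • H i : Submodule R X) := fun i =>
    projective_of_injective (inclusion (smul_le_right.trans (le_iSup H i))) (inclusion_injective _)
  have hH0 : ∀ i, P • H i ≠ ⊥ := fun i h => hne i (eq_bot_iff.2 fun x hx => congrArg Subtype.val
    (htf i ⟨x, hx⟩ P hP.1 fun a ha => Subtype.ext (h.le (smul_mem_smul ha hx))))
  choose F hF using fun l => hP.cover (fun i => P • H i) hH hH0
    ((fg_col htD ((hfg l.1).map j) (hP.1.pow l.2)).map N.mkQ) (hV l) (hc l)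
  obtain ⟨q, hq⟩ := glue (hind.mono fun i => (smul_le_right : P • H i ≤ H i)) fun i => F (c i) i
  obtain ⟨h, hh, hh'⟩ := hY.ext (⨆ i, H i).subtype (injective_subtype _)
    (N.mkQ ∘ₗ j ∘ₗ (⨆ i, H i).subtype) fun x => by
      have : (⨆ i, H i) ≤ (⨆ l, V l).comap (N.mkQ ∘ₗ j) := iSup_le fun i y hy =>
        mem_iSup_of_mem (i, 0) (mem_map_of_mem (le_col (mem_map_of_mem hy)))
      exact this x.2
  refine ⟨D ⧸ N, inferInstance, inferInstance, ⨆ l, V l,
    q ∘ₗ (LinearEquiv.ofEq _ _ smul_iSup).toLinearMap, h, hY, ?_, hh, fun x hx => ?_⟩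
  · rw [LinearMap.range_comp_of_range_eq_top _ (LinearEquiv.range _)]
    refine iSup_le fun l => (hF l).trans (iSup₂_le fun i hi => ?_)
    rintro _ ⟨x, rfl⟩
    rw [← (hi : c i = l), ← hq]
    exact ⟨_, rfl⟩
  · rw [show h x = N.mkQ (j x) from hh' ⟨x, hx⟩, mkQ_apply, Quotient.mk_eq_zero]
    refine ⟨fun ⟨y, hy, hyx⟩ => ?_, mem_map_of_mem⟩
    have := hj (y - x) (sub_mem (smul_le_right hy) hx) (by rw [map_sub, hyx, sub_self])
    exact sub_eq_zero.1 this ▸ hy

theorem AutLiftable.projective_of_infinite (hM : AutLiftable R X)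
    (hcl : ∀ x, x ∈ cl (⨆ i, H i)) : Module.Projective R X := by
  have := projective_family hind hfg htf
  have hK : ∀ P : Ideal R, Module.Projective R (P • ⨆ i, H i : Submodule R X) := fun P =>
    projective_of_injective (inclusion smul_le_right) (inclusion_injective _)
  have hT : TF R X := by
    intro x I hI hx
    by_contra hx0
    have := hI.1
    obtain ⟨P, hP, y, -, hy0, hy⟩ := exists_mx_of_killed hI x hx0 (mem_col.2 hx)
    have := hP.1.1
    have := hK P
    obtain ⟨D, _, _, Y, q, h, hY, hYq, hh, hh'⟩ := hP.core hind hfg htf hne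
    have h1 : ¬ (⨆ i, H i) ≤ P • ⨆ i, H i := fun h =>
      hne (Classical.arbitrary κ) (eq_bot_iff.2 (hP.eq_bot_of_le_smul le_rfl h ▸ le_iSup H _))
    obtain ⟨z, hz, hz'⟩ := SetLike.not_le_iff_exists.1 h1
    have h2 := hM.no_tors hP tf_of_projective q hY hYq (hh z) (mt (hh' z hz).1 hz')
      (mem_col.2 fun a ha => by
        rw [← map_smul]
        exact (hh' _ (Submodule.smul_mem _ a hz)).2 (smul_mem_smul ha hz))
    exact hy0 ((mem_bot R).1 (h2 ▸ hy))
  obtain ⟨P, hP⟩ := exists_isMx (R := R)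
  have := hP.1.1
  have := hK P
  obtain ⟨D, _, _, Y, q, h, hY, hYq, hh, hh'⟩ := hP.core hind hfg htf hne
  obtain ⟨g, hg⟩ := hM.sq _ q h (fun x hx => (hh' x (smul_le_right hx)).2 hx) fun x => hYq (hh x)
  have h1 : LinearMap.ker g ⊓ ⨆ i, H i = ⊥ := by
    refine hP.eq_bot_of_le_smul inf_le_right ((hP.1.lemC (Y := ⨆ i, H i) fun x hx => ?_).trans
      (smul_mono le_rfl fun x hx => ⟨?_, hx.1⟩))
    · exact (hh' x hx.2).1 (by rw [← hg, LinearMap.mem_ker.1 hx.1, map_zero])
    · exact tf_of_projective _ P hP.1 fun a ha => by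
        rw [← map_smul]; exact (mem_col.1 hx.2 a ha).1
  refine projective_of_injective g ((injective_iff_map_eq_zero g).2 fun x hx => ?_)
  obtain ⟨I, hI, hxI⟩ := hcl x
  have := hI.1
  refine hT x I hI fun a ha => (mem_bot R).1 (h1 ▸ ⟨?_, mem_col.1 hxI a ha⟩)
  rw [SetLike.mem_coe, LinearMap.mem_ker, map_smul, hx, smul_zero]

end

end Pool.Agent.MP_181731_al
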