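import Pool.Agent.MP_181731_al.Base

namespace Pool.Agent.MP_181731_al

open Function Submodule

universe u v w

variable {R : Type u} [Ring R]
variable {M : Type*} [AddCommGroup M] [Module R M] {M' : Type*} [AddCommGroup M'] [Module R M']

/-- the elements `m` with `I m ⊆ X` -/
def col (I : Ideal R) (X : Submodule R M) : Submodule R M where
  carrier := {m | ∀ a ∈ I, ∀ r : R, a • r • m ∈ X}
  add_mem' := fun {x y} hx hy a ha r => by
    rw [smul_add, smul_add]; exact add_mem (hx a ha r) (hy a ha r)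
  zero_mem' := fun a _ r => by simp
  smul_mem' := fun s x hx a ha r => by rw [← mul_smul r]; exact hx a ha _

theorem mem_col {I : Ideal R} [I.IsTwoSided] {X : Submodule R M} {m : M} :
    m ∈ col I X ↔ ∀ a ∈ I, a • m ∈ X :=
  ⟨fun h a ha => by simpa using h a ha 1,
    fun h a ha r => by rw [← mul_smul]; exact h _ (I.mul_mem_right r ha)⟩

theorem le_col_iff {I : Ideal R} {X Y : Submodule R M} : Y ≤ col I X ↔ I • Y ≤ X :=
  ⟨fun h => smul_le.2 fun a ha y hy => by simpa using h hy a ha 1,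
    fun h y hy a ha r => h (smul_mem_smul ha (Y.smul_mem r hy))⟩

theorem mem_col_iff {I : Ideal R} {X : Submodule R M} {m : M} :
    m ∈ col I X ↔ I • span R {m} ≤ X := by
  rw [← le_col_iff, span_singleton_le_iff_mem]

theorem smul_col_le {I : Ideal R} {X : Submodule R M} : I • col I X ≤ X := le_col_iff.1 le_rfl

theorem le_col {I : Ideal R} {X : Submodule R M} : X ≤ col I X := le_col_iff.2 smul_le_right

theorem col_mono {I J : Ideal R} {X Y : Submodule R M} (h : J ≤ I) (h' : X ≤ Y) :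
    col I X ≤ col J Y := fun _ hm a ha r => h' (hm a (h ha) r)

theorem col_top {X : Submodule R M} : col ⊤ X = X :=
  le_antisymm (fun m hm => by simpa using hm 1 mem_top 1) le_col

theorem col_mul {I J : Ideal R} {X : Submodule R M} : col (I * J) X = col J (col I X) := by
  ext m
  rw [mem_col_iff, mem_col_iff, le_col_iff, Submodule.mul_smul]

theorem map_col_le {I : Ideal R} {X : Submodule R M} (f : M →ₗ[R] M') :
    (col I X).map f ≤ col I (X.map f) := by
  rw [le_col_iff, ← map_smul'']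
  exact map_mono smul_col_le

theorem comap_col {I : Ideal R} {X : Submodule R M'} (f : M →ₗ[R] M') :
    (col I X).comap f = col I (X.comap f) := by
  ext m
  exact forall₂_congr fun a _ => forall_congr' fun r => by simp

theorem apply_mem_col {I : Ideal R} (f : M →ₗ[R] M') {m : M} (h : m ∈ col I (⊥ : Submodule R M)) :
    f m ∈ col I (⊥ : Submodule R M') := by
  have := map_col_le f (mem_map_of_mem h)
  rwa [Submodule.map_bot] at this

theorem pow_zero' (P : Ideal R) : P ^ 0 = ⊤ := by rw [Submodule.pow_zero, Ideal.one_eq_top]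

theorem pow_succ_smul (P : Ideal R) (n : ℕ) (X : Submodule R M) :
    P ^ (n + 1) • X = P ^ n • P • X := by rw [Submodule.pow_succ, Submodule.mul_smul]

theorem pow_succ_smul' (P : Ideal R) [P.IsTwoSided] (n : ℕ) (X : Submodule R M) :
    P ^ (n + 1) • X = P • P ^ n • X := by rw [Ideal.IsTwoSided.pow_succ, Submodule.mul_smul]

theorem pow_add_smul (P : Ideal R) [P.IsTwoSided] (m n : ℕ) (X : Submodule R M) :
    P ^ (m + n) • X = P ^ m • P ^ n • X := by rw [Ideal.IsTwoSided.pow_add, Submodule.mul_smul]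

theorem pow_anti (P : Ideal R) [P.IsTwoSided] {m n : ℕ} (h : m ≤ n) : P ^ n ≤ P ^ m := by
  obtain ⟨k, rfl⟩ := Nat.exists_eq_add_of_le h
  rw [Ideal.IsTwoSided.pow_add]
  exact Ideal.mul_le_left

theorem le_pow_smul {P : Ideal R} {X : Submodule R M} (h : X ≤ P • X) (n : ℕ) : X ≤ P ^ n • X := by
  induction n with
  | zero => rw [pow_zero', top_smul]
  | succ n ih => rw [pow_succ_smul]; exact ih.trans (smul_mono le_rfl h)

/-- Nakayama for a nilpotent action -/
theorem nak {P : Ideal R} {X Z : Submodule R M} (h : Z ≤ X ⊔ P • Z) {n : ℕ} (hn : P ^ n • Z = ⊥) :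
    Z ≤ X := by
  have : ∀ k, Z ≤ X ⊔ P ^ k • Z := by
    intro k
    induction k with
    | zero => rw [pow_zero', top_smul]; exact le_sup_right
    | succ k ih =>
      refine ih.trans (sup_le le_sup_left ?_)
      refine (smul_mono le_rfl h).trans ?_
      rw [smul_sup, pow_succ_smul]
      exact sup_le_sup smul_le_right le_rfl
  simpa [hn] using this n

theorem rep0 {L I : Ideal R} {l : L →ₗ[R] R}
    (hl : ∀ b ∈ I, ∃ c : R, ∀ x : L, l x * b = (x : R) * c) {Y : Submodule R M} {v : M}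
    (hv : v ∈ I • Y) : ∃ m ∈ Y, ∀ x : L, l x • v = (x : R) • m := by
  refine smul_induction_on hv (fun b hb y hy => ?_) (fun v v' h h' => ?_)
  · obtain ⟨c, hc⟩ := hl b hb
    exact ⟨c • y, Y.smul_mem c hy, fun x => by rw [← mul_smul, hc, mul_smul]⟩
  · obtain ⟨m, hm, h⟩ := h
    obtain ⟨m', hm', h'⟩ := h'
    exact ⟨m + m', add_mem hm hm', fun x => by rw [smul_add, smul_add, h, h']⟩

theorem DualData.rep {L I : Ideal R} (h : DualData L I) {Y : Submodule R M} (g : L →ₗ[R] M)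
    (hg : ∀ x, g x ∈ I • Y) : ∃ m ∈ Y, ∀ x : L, g x = (x : R) • m := by
  obtain ⟨n, a, l, hl, hl'⟩ := h
  choose m hm hm' using fun i => rep0 (hl' i) (hg (a i))
  refine ⟨∑ i, m i, sum_mem fun i _ => hm i, fun x => ?_⟩
  rw [Finset.smul_sum]
  conv_lhs => rw [← hl x, map_sum]
  exact Finset.sum_congr rfl fun i _ => by rw [map_smul, hm']

theorem Dv.map {Y : Submodule R M} (h : Dv Y) (f : M →ₗ[R] M') : Dv (Y.map f) := fun I hI => by
  rw [← map_smul'']; exact map_mono (h I hI)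

theorem Dv.iSup {ι : Sort*} {Y : ι → Submodule R M} (h : ∀ i, Dv (Y i)) : Dv (⨆ i, Y i) :=
  fun I hI => iSup_le fun i => (h i I hI).trans (smul_mono le_rfl (le_iSup Y i))

theorem Dv.sup {X Y : Submodule R M} (h : Dv X) (h' : Dv Y) : Dv (X ⊔ Y) := fun I hI => by
  rw [smul_sup]; exact sup_le_sup (h I hI) (h' I hI)

theorem dv_bot : Dv (⊥ : Submodule R M) := fun _ _ => bot_le

theorem top_le_smul_iff {I : Ideal R} {Y : Submodule R M} :
    (⊤ : Submodule R Y) ≤ I • ⊤ ↔ Y ≤ I • Y := by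
  rw [← map_le_map_iff_of_injective Y.injective_subtype, map_smul'', map_subtype_top]

theorem dv_top_iff {Y : Submodule R M} : Dv (⊤ : Submodule R Y) ↔ Dv Y :=
  forall₂_congr fun _ _ => top_le_smul_iff

theorem Dv.range (h : Dv (⊤ : Submodule R M)) (f : M →ₗ[R] M') : Dv (LinearMap.range f) := by
  rw [LinearMap.range_eq_map]; exact h.map f

theorem TF.of_injective (h : TF R M') (f : M →ₗ[R] M') (hf : Injective f) : TF R M :=
  fun x I hI hx => hf (by
    rw [map_zero]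
    exact h _ I hI fun a ha => by rw [← map_smul, hx a ha, map_zero])

theorem TF.sub (h : TF R M) (X : Submodule R M) : TF R X := h.of_injective _ X.injective_subtype

theorem TF.col_bot (h : TF R M) {I : Ideal R} (hI : NZ I) : col I (⊥ : Submodule R M) = ⊥ := by
  have := hI.1
  rw [eq_bot_iff]
  exact fun x hx => h x I hI (mem_col.1 hx)

/-- maximal nonzero two-sided ideal -/
def IsMx (P : Ideal R) : Prop := NZ P ∧ P ≠ ⊤ ∧ ∀ J : Ideal R, J.IsTwoSided → P < J → J = ⊤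

theorem IsMx.sup_eq_top {P J : Ideal R} (hP : IsMx P) (hJ : J.IsTwoSided) (h : ¬ J ≤ P) :
    P ⊔ J = ⊤ := by
  have := hP.1.1
  refine hP.2.2 _ ⟨fun {a} b ha => ?_⟩ (lt_of_le_of_ne le_sup_left fun h' => h ?_)
  · obtain ⟨x, hx, y, hy, rfl⟩ := mem_sup.1 ha
    rw [add_mul]
    exact add_mem (mem_sup_left (P.mul_mem_right b hx)) (mem_sup_right (J.mul_mem_right b hy))
  · rw [h']; exact le_sup_right

theorem IsMx.sup_eq_top_of_ne {P P' : Ideal R} (hP : IsMx P) (hP' : IsMx P') (h : P ≠ P') :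
    P ⊔ P' = ⊤ :=
  hP.sup_eq_top hP'.1.1 fun h' => hP.2.1 (hP'.2.2 _ hP.1.1 (lt_of_le_of_ne h' h.symm))

theorem col_twoSided (I J : Ideal R) [J.IsTwoSided] : Ideal.IsTwoSided (col I J : Ideal R) :=
  ⟨fun {a} b ha x hx r => by
    have := ha x hx r
    simp only [smul_eq_mul] at this ⊢
    rw [← mul_assoc r, ← mul_assoc x]
    exact J.mul_mem_right b this⟩

variable [G : Good.{u, w} R]
include G

theorem NZ.mul {I J : Ideal R} (hI : NZ I) (hJ : NZ J) : NZ (I * J) := by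
  have := hJ.1
  refine ⟨inferInstance, fun h => hJ.2 ?_⟩
  rw [eq_bot_iff]
  intro b hb
  refine G.tf b I hI fun a ha => ?_
  have : a * b ∈ I * J := Ideal.mul_mem_mul ha hb
  rw [h] at this
  exact this

theorem nz_top : NZ (⊤ : Ideal R) := have := G.nontriv; ⟨inferInstance, top_ne_bot⟩

theorem NZ.pow {I : Ideal R} (hI : NZ I) (n : ℕ) : NZ (I ^ n) := by
  induction n with
  | zero => rw [pow_zero']; exact nz_top
  | succ n ih => exact ih.mul hI

theorem NZ.inf {I J : Ideal R} (hI : NZ I) (hJ : NZ J) : NZ (I ⊓ J) := by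
  have := hI.1
  have := hJ.1
  exact ⟨⟨fun {a} b ha => ⟨I.mul_mem_right b ha.1, J.mul_mem_right b ha.2⟩⟩,
    fun h => (hI.mul hJ).2 (eq_bot_iff.2 (h ▸ Ideal.mul_le_inf))⟩

theorem NZ.rep {I : Ideal R} (hI : NZ I) {Y : Submodule R M} (g : I →ₗ[R] M)
    (hg : ∀ x, g x ∈ I • Y) : ∃ m ∈ Y, ∀ x : I, g x = (x : R) • m :=
  (G.dualSelf I hI).rep g hg

/-- cancellation -/
theorem NZ.cancel {I : Ideal R} (hI : NZ I) (Y K : Submodule R M) :
    col I (I • Y ⊔ K) ≤ Y ⊔ col I K := by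
  have := hI.1
  intro x hx
  rw [mem_col] at hx
  obtain ⟨_, ⟨y, hy, rfl⟩, h⟩ := hI.rep (Y := Y.map K.mkQ)
    (K.mkQ ∘ₗ LinearMap.toSpanSingleton R M x ∘ₗ I.subtype) fun a => by
      obtain ⟨p, hp, k, hk, hpk⟩ := mem_sup.1 (hx a a.2)
      rw [← map_smul'']
      refine ⟨p, hp, ?_⟩
      simp only [LinearMap.comp_apply, subtype_apply, LinearMap.toSpanSingleton_apply, ← hpk,
        map_add, mkQ_apply, (Quotient.mk_eq_zero K).2 hk, add_zero]
  refine mem_sup.2 ⟨y, hy, x - y, mem_col.2 fun a ha => ?_, by abel⟩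
  have := h ⟨a, ha⟩
  simp only [LinearMap.comp_apply, subtype_apply, LinearMap.toSpanSingleton_apply] at this
  rw [← map_smul, mkQ_apply, mkQ_apply, Submodule.Quotient.eq] at this
  rwa [smul_sub]

theorem NZ.le_of_smul_le {I : Ideal R} (hI : NZ I) {X Y : Submodule R M} (h : I • X ≤ I • Y) :
    X ≤ Y ⊔ col I ⊥ :=
  (le_col_iff.2 (h.trans le_sup_left)).trans (hI.cancel Y ⊥)

theorem NZ.lemC {I : Ideal R} (hI : NZ I) {X Y : Submodule R M} (h : X ≤ I • Y) :
    X ≤ I • (Y ⊓ col I X) := by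
  have := hI.1
  intro x hx
  have : (⊤ : Ideal R) ≤ (I • (Y ⊓ col I X)).comap (LinearMap.toSpanSingleton R M x) := by
    rw [← G.trace I hI]
    refine iSup_le fun l => ?_
    rintro _ ⟨a, rfl⟩
    obtain ⟨m, hm, hm'⟩ := hI.rep (Y := Y) (LinearMap.toSpanSingleton R M x ∘ₗ l)
      fun b => h (X.smul_mem _ hx)
    rw [mem_comap, ← LinearMap.comp_apply, hm']
    refine smul_mem_smul a.2 ⟨hm, mem_col.2 fun b hb => ?_⟩
    rw [← hm' ⟨b, hb⟩]
    exact X.smul_mem _ hx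
  simpa using this (mem_top : (1 : R) ∈ ⊤)

theorem Dv.baer (h : Dv (⊤ : Submodule R M)) : Module.Baer R M := by
  intro L g
  obtain ⟨I, hI, hd⟩ := G.dual L
  obtain ⟨m, -, hm⟩ := hd.rep (Y := ⊤) g fun x => h I hI mem_top
  exact ⟨LinearMap.toSpanSingleton R M m, fun x hx => by simp [hm]⟩

/-- divisible submodules are injective -/
theorem Dv.ext {Y : Submodule R M} (h : Dv Y) {A B : Type*} [AddCommGroup A] [Module R A]
    [AddCommGroup B] [Module R B] (f : A →ₗ[R] B) (hf : Injective f) (g : A →ₗ[R] M)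
    (hg : ∀ a, g a ∈ Y) : ∃ k : B →ₗ[R] M, (∀ b, k b ∈ Y) ∧ ∀ a, k (f a) = g a := by
  obtain ⟨k, hk⟩ := (dv_top_iff.2 h).baer.extension_property f hf (g.codRestrict Y hg)
  exact ⟨Y.subtype ∘ₗ k, fun b => (k b).2, fun a => by
    rw [LinearMap.comp_apply, ← LinearMap.comp_apply k, hk]; rfl⟩

theorem Dv.isCompl {Y : Submodule R M} (h : Dv Y) : ∃ Z, IsCompl Y Z := by
  obtain ⟨k, hk⟩ := (dv_top_iff.2 h).baer.extension_property Y.subtype Y.injective_subtype
    LinearMap.id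
  exact ⟨_, LinearMap.isCompl_of_proj (f := k) fun x => DFunLike.congr_fun hk x⟩

theorem NZ.eq_top_of_le_mul {J P : Ideal R} [P.IsTwoSided] (hJ : NZ J) (h : J ≤ P * J) :
    P = ⊤ := by
  rw [eq_top_iff, ← G.trace J hJ]
  refine iSup_le fun l => ?_
  have h1 : (⊤ : Submodule R J) ≤ P • ⊤ := top_le_smul_iff.2 h
  have h2 := map_mono (f := l) h1
  rw [map_smul'', Submodule.map_top] at h2
  exact h2.trans Ideal.mul_le_left

theorem NZ.eq_mul_col {P I : Ideal R} (hP : NZ P) (h : I ≤ P) : I = P * col P I := by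
  have := hP.1
  refine le_antisymm ?_ smul_col_le
  have h1 : I ≤ P • (⊤ : Ideal R) := by rw [Ideal.smul_eq_mul, Ideal.mul_top]; exact h
  have := hP.lemC h1
  rwa [top_inf_eq] at this

theorem exists_isMx_ge {I : Ideal R} (hI : NZ I) (hI' : I ≠ ⊤) : ∃ P, IsMx P ∧ I ≤ P := by
  have := G.noeth
  obtain ⟨P, ⟨hP1, hP2, hP3⟩, hP⟩ := set_has_maximal_iff_noetherian.2
    (inferInstance : IsNoetherian R R) {J : Ideal R | J.IsTwoSided ∧ J ≠ ⊤ ∧ I ≤ J}
    ⟨I, hI.1, hI', le_rfl⟩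
  refine ⟨P, ⟨⟨hP1, fun h => hI.2 (eq_bot_iff.2 (h ▸ hP3))⟩, hP2, fun J hJ hPJ => ?_⟩, hP3⟩
  by_contra hne
  exact hP J ⟨hJ, hne, hP3.trans hPJ.le⟩ hPJ

theorem exists_factor {I : Ideal R} (hI : NZ I) (hI' : I ≠ ⊤) :
    ∃ P J : Ideal R, IsMx P ∧ NZ J ∧ I < J ∧ I = P * J := by
  obtain ⟨P, hP, hIP⟩ := exists_isMx_ge hI hI'
  have := hI.1
  have := hP.1.1
  have h := hP.1.eq_mul_col hIP
  refine ⟨P, col P I, hP, ⟨col_twoSided P I, fun h => hI.2 (eq_bot_iff.2 (h ▸ le_col))⟩,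
    lt_of_le_of_ne le_col fun h' => hP.2.1 (hI.eq_top_of_le_mul ?_), h⟩
  rw [← h'] at h
  exact h.le

theorem nz_induction {p : Ideal R → Prop} (h0 : p ⊤)
    (h : ∀ P J : Ideal R, IsMx P → NZ J → p J → p (P * J)) (I : Ideal R) (hI : NZ I) : p I := by
  have := G.noeth
  induction I using IsNoetherian.induction with
  | hgt I ih =>
    by_cases hI' : I = ⊤
    · exact hI' ▸ h0
    · obtain ⟨P, J, hP, hJ, hIJ, rfl⟩ := exists_factor hI hI'
      exact h P J hP hJ (ih J hIJ hJ)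

theorem dv_of_mx {Y : Submodule R M} (h : ∀ P : Ideal R, IsMx P → Y ≤ P • Y) : Dv Y :=
  nz_induction (p := fun I => Y ≤ I • Y) (by rw [top_smul]) fun P J hP _ hJ => by
    rw [Submodule.mul_smul]
    exact (h P hP).trans (smul_mono le_rfl hJ)

theorem exists_mx_of_killed {I : Ideal R} (hI : NZ I) : ∀ x : M, x ≠ 0 → x ∈ col I ⊥ →
    ∃ P : Ideal R, IsMx P ∧ ∃ y ∈ span R {x}, y ≠ 0 ∧ y ∈ col P ⊥ := by
  refine nz_induction (p := fun I : Ideal R => ∀ x : M, x ≠ 0 → x ∈ col I ⊥ →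
    ∃ P : Ideal R, IsMx P ∧ ∃ y ∈ span R {x}, y ≠ 0 ∧ y ∈ col P ⊥) ?_ ?_ I hI
  · intro x hx h
    rw [col_top] at h
    exact (hx h).elim
  · intro P J hP _ ih x hx h
    by_cases hJ : x ∈ col J ⊥
    · exact ih x hx hJ
    · rw [col_mul, mem_col_iff] at h
      rw [mem_col_iff, le_bot_iff] at hJ
      obtain ⟨y, hy, hy0⟩ := (Submodule.ne_bot_iff _).1 hJ
      exact ⟨P, hP, y, smul_le_right hy, hy0, h hy⟩

theorem IsMx.krull {P I : Ideal R} (hP : IsMx P) (hI : I.IsTwoSided) (h : ∀ n, I ≤ P ^ n) :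
    I = ⊥ := by
  by_contra hne
  have := G.noeth
  have := hP.1.1
  let f : ℕ →o Ideal R := ⟨fun n => col (P ^ n) I, fun m n hmn => col_mono (pow_anti P hmn) le_rfl⟩
  obtain ⟨n, hn⟩ := monotone_stabilizes_iff_noetherian.2 (inferInstance : IsNoetherian R R) f
  have h1 : col (P ^ n) I = col (P ^ (n + 1)) I := hn (n + 1) (Nat.le_succ n)
  have h2 := (hP.1.pow (n + 1)).eq_mul_col (h (n + 1))
  rw [← h1, Submodule.pow_succ, Ideal.mul_assoc] at h2
  have h3 : P ^ n • col (P ^ n) I ≤ P ^ n • (P * col (P ^ n) I) := smul_col_le.trans h2.le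
  have h4 := (hP.1.pow n).le_of_smul_le h3
  rw [G.tf.col_bot (hP.1.pow n), sup_bot_eq] at h4
  exact hP.2.1 (NZ.eq_top_of_le_mul ⟨col_twoSided _ I,
    fun h => hne (eq_bot_iff.2 (h ▸ le_col))⟩ h4)

theorem IsMx.factor_pow {P I : Ideal R} (hP : IsMx P) (hI : NZ I) :
    ∃ (n : ℕ) (J : Ideal R), NZ J ∧ P ⊔ J = ⊤ ∧ I = P ^ n * J := by
  classical
  have := hP.1.1
  have := hI.1
  have hex : ∃ n, ¬ I ≤ P ^ (n + 1) := by
    by_contra hn
    push Not at hn
    exact hI.2 (hP.krull hI.1 fun n => (hn n).trans (pow_anti P (Nat.le_succ n)))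
  have h1 : I ≤ P ^ Nat.find hex := by
    rcases h : Nat.find hex with _ | k
    · rw [pow_zero']; exact le_top
    · have := Nat.find_min hex (m := k) (by omega)
      exact not_not.1 this
  have h2 := (hP.1.pow _).eq_mul_col h1
  refine ⟨_, _, ⟨col_twoSided _ I, fun h => hI.2 (eq_bot_iff.2 (h ▸ le_col))⟩,
    hP.sup_eq_top (col_twoSided _ I) fun h => Nat.find_spec hex ?_, h2⟩
  rw [Submodule.pow_succ]
  exact h2.le.trans (Ideal.mul_mono_right h)

theorem split_comax {I J : Ideal R} (hI : NZ I) (hJ : J.IsTwoSided) (h : I ⊔ J = ⊤) :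
    col (I * J) (⊥ : Submodule R M) ≤ col I ⊥ ⊔ col J ⊥ := by
  have := hI.1
  have hJI : J * I ≤ I * J := by
    have h1 := hI.eq_mul_col (inf_le_left : I ⊓ J ≤ I)
    have h2 : col I (I ⊓ J) ≤ J := by
      have : (I ⊔ J) • col I (I ⊓ J) ≤ J := by
        rw [sup_smul]
        exact sup_le (smul_col_le.trans inf_le_right) Ideal.mul_le_left
      rwa [h, top_smul] at this
    refine (Ideal.mul_le_inf.trans (inf_comm J I).le).trans ?_
    exact h1.le.trans (Ideal.mul_mono_right h2)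
  intro x hx
  rw [mem_col] at hx
  obtain ⟨a, ha, b, hb, hab⟩ := mem_sup.1 (h ▸ mem_top : (1 : R) ∈ I ⊔ J)
  refine mem_sup.2 ⟨b • x, mem_col.2 fun c hc => ?_, a • x, mem_col.2 fun c hc => ?_, ?_⟩
  · rw [← mul_smul]; exact hx _ (Ideal.mul_mem_mul hc hb)
  · rw [← mul_smul]; exact hx _ (hJI (Ideal.mul_mem_mul hc ha))
  · rw [← add_smul, add_comm, hab, one_smul]

theorem exists_isMx : ∃ P : Ideal R, IsMx P := by
  have := G.nontriv
  obtain ⟨m, hm⟩ := Ideal.exists_maximal R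
  obtain ⟨I, hI, hIm⟩ := G.nonprim m hm
  obtain ⟨P, hP, -⟩ := exists_isMx_ge hI fun h => hm.ne_top (eq_top_iff.2 (h ▸ hIm))
  exact ⟨P, hP⟩

/-- torsion closure -/
def cl (X : Submodule R M) : Submodule R M where
  carrier := {m | ∃ I, NZ I ∧ m ∈ col I X}
  add_mem' := fun ⟨I, hI, hx⟩ ⟨J, hJ, hy⟩ => ⟨I ⊓ J, hI.inf hJ,
    add_mem (col_mono inf_le_left le_rfl hx) (col_mono inf_le_right le_rfl hy)⟩
  zero_mem' := ⟨⊤, nz_top, zero_mem _⟩
  smul_mem' := fun r _ ⟨I, hI, hx⟩ => ⟨I, hI, Submodule.smul_mem _ r hx⟩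

theorem le_cl {X : Submodule R M} : X ≤ cl X := fun _ hx => ⟨⊤, nz_top, le_col hx⟩

theorem col_le_cl {I : Ideal R} (hI : NZ I) {X : Submodule R M} : col I X ≤ cl X :=
  fun _ hx => ⟨I, hI, hx⟩

theorem cl_mono {X Y : Submodule R M} (h : X ≤ Y) : cl X ≤ cl Y :=
  fun _ ⟨I, hI, hx⟩ => ⟨I, hI, col_mono le_rfl h hx⟩

theorem fg_le_cl {X Y : Submodule R M} (hY : Y.FG) (h : Y ≤ cl X) : ∃ I, NZ I ∧ Y ≤ col I X := by
  induction Y, hY using Submodule.fg_induction with
  | singleton x =>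
    obtain ⟨I, hI, hx⟩ := h (mem_span_singleton_self x)
    exact ⟨I, hI, (span_singleton_le_iff_mem _ _).2 hx⟩
  | sup Y Z _ _ hY hZ =>
    obtain ⟨I, hI, hY⟩ := hY (le_sup_left.trans h)
    obtain ⟨J, hJ, hZ⟩ := hZ (le_sup_right.trans h)
    exact ⟨I ⊓ J, hI.inf hJ, sup_le (hY.trans (col_mono inf_le_left le_rfl))
      (hZ.trans (col_mono inf_le_right le_rfl))⟩

theorem fg_smul_span (I : Ideal R) (x : M) : (I • span R {x}).FG := by
  have := G.noeth
  have : IsNoetherian R (span R {x}) := isNoetherian_of_fg_of_noetherian _ (fg_span_singleton x)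
  exact (fg_span_singleton x).of_le smul_le_right

theorem col_cl_le {I : Ideal R} (hI : NZ I) {X : Submodule R M} : col I (cl X) ≤ cl X := by
  intro x hx
  obtain ⟨J, hJ, h⟩ := fg_le_cl (fg_smul_span I x) (mem_col_iff.1 hx)
  exact ⟨J * I, hJ.mul hI, by rw [col_mul, mem_col_iff]; exact h⟩

theorem tf_iff : TF R M ↔ cl (⊥ : Submodule R M) = ⊥ := by
  refine ⟨fun h => eq_bot_iff.2 fun x ⟨I, hI, hx⟩ => by rwa [h.col_bot hI] at hx,
    fun h x I hI hx => ?_⟩
  have := hI.1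
  exact (mem_bot R).1 (h ▸ col_le_cl hI (mem_col.2 hx))

theorem tf_quot_cl (X : Submodule R M) : TF R (M ⧸ cl X) := by
  intro x I hI hx
  have := hI.1
  obtain ⟨x, rfl⟩ := Submodule.Quotient.mk_surjective _ x
  rw [Quotient.mk_eq_zero]
  exact col_cl_le hI (mem_col.2 fun a ha => (Quotient.mk_eq_zero _).1 (hx a ha))

theorem tf_of_disjoint {X : Submodule R M} (h : Disjoint X (cl ⊥)) : TF R X := by
  intro x I hI hx
  have := hI.1
  refine Subtype.ext ((Submodule.disjoint_def.1 h) x x.2 (col_le_cl hI (mem_col.2 fun a ha => ?_)))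
  exact congrArg Subtype.val (hx a ha)

theorem apply_mem_cl (f : M →ₗ[R] M') {X : Submodule R M} {x : M} (h : x ∈ cl X) :
    f x ∈ cl (X.map f) := by
  obtain ⟨I, hI, hx⟩ := h
  exact ⟨I, hI, map_col_le f (mem_map_of_mem hx)⟩

theorem TF.apply_eq_zero (h : TF R M') (f : M →ₗ[R] M') {x : M} (hx : x ∈ cl (⊥ : Submodule R M)) :
    f x = 0 := by
  have := apply_mem_cl f hx
  rwa [Submodule.map_bot, tf_iff.1 h] at this

theorem Dv.cl {Y X : Submodule R M} (h : Dv Y) : Dv (Y ⊓ cl X) := fun I hI =>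
  (hI.lemC (inf_le_left.trans (h I hI))).trans
    (smul_mono le_rfl (inf_le_inf le_rfl ((col_mono le_rfl inf_le_right).trans (col_cl_le hI))))

/-- primary closure -/
def pc (P : Ideal R) (X : Submodule R M) : Submodule R M := ⨆ n : ℕ, col (P ^ n) X

omit G in
theorem mem_pc {P : Ideal R} [P.IsTwoSided] {X : Submodule R M} {x : M} :
    x ∈ pc P X ↔ ∃ n : ℕ, x ∈ col (P ^ n) X :=
  mem_iSup_of_directed _ (Monotone.directed_le fun _ _ h => col_mono (pow_anti P h) le_rfl)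

theorem IsMx.dv_of_primary {P : Ideal R} (hP : IsMx P) {Y : Submodule R M} (h : Y ≤ P • Y)
    (hY : Y ≤ pc P ⊥) : Dv Y := by
  have := hP.1.1
  refine dv_of_mx fun P' hP' => ?_
  by_cases hPP : P = P'
  · exact hPP ▸ h
  · intro y hy
    obtain ⟨n, hn⟩ := mem_pc.1 (hY hy)
    have h1 : P ^ n ⊔ P' = ⊤ := Ideal.pow_sup_eq_top (hP.sup_eq_top_of_ne hP' hPP)
    obtain ⟨a, ha, b, hb, hab⟩ := mem_sup.1 (h1 ▸ mem_top : (1 : R) ∈ P ^ n ⊔ P')
    have h2 : a • y = 0 := mem_col.1 hn a ha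
    have : y = b • y := by
      conv_lhs => rw [← one_smul R y, ← hab, add_smul, h2, zero_add]
    rw [this]
    exact smul_mem_smul hb hy

theorem pc_le_smul {P : Ideal R} (hP : NZ P) (h : (⊤ : Submodule R M) ≤ P • ⊤)
    (X : Submodule R M) : pc P X ≤ P • pc P X := by
  have := hP.1
  refine iSup_le fun n => (hP.lemC (le_top.trans h)).trans (smul_mono le_rfl ?_)
  rw [top_inf_eq, ← col_mul, ← Submodule.pow_succ]
  exact le_iSup (fun n => col (P ^ n) X) (n + 1)

theorem fg_dv_eq_bot {Y : Submodule R M} (hY : Y.FG) (h : Dv Y) : Y = ⊥ := by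
  by_contra hne
  have := G.noeth
  have : Module.Finite R Y := Module.Finite.iff_fg.2 hY
  have : Nontrivial Y := nontrivial_iff_ne_bot.2 hne
  obtain ⟨Z, hZ⟩ := IsCoatomic.exists_coatom (Submodule R Y)
  have := isSimpleModule_iff_isCoatom.2 hZ
  obtain ⟨m, hm, ⟨e⟩⟩ := (isSimpleModule_iff_quot_maximal (R := R) (M := Y ⧸ Z)).1 inferInstance
  obtain ⟨J, hJ, hJm⟩ := G.nonprim m hm
  have := hJ.1
  refine hZ.1 (eq_top_iff.2 ((dv_top_iff.2 h J hJ).trans (smul_le.2 fun b hb x _ => ?_)))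
  rw [← Submodule.Quotient.mk_eq_zero, Submodule.Quotient.mk_smul]
  apply e.injective
  obtain ⟨r, hr⟩ := Submodule.Quotient.mk_surjective m (e (Submodule.Quotient.mk x))
  rw [map_smul, map_zero, ← hr, ← Submodule.Quotient.mk_smul, Submodule.Quotient.mk_eq_zero]
  exact hJm (J.mul_mem_right r hb)

end Pool.Agent.MP_181731_al
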