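import Pool.Agent.MP_181731_al.AL

namespace Pool.Agent.MP_181731_al

open Function Submodule

universe u v w

variable {R : Type u} [Ring R]
variable {M : Type*} [AddCommGroup M] [Module R M] {C : Type*} [AddCommGroup C] [Module R C]

/-- no nonzero proper divisible submodule -/
def Ind (R : Type u) [Ring R] (M : Type*) [AddCommGroup M] [Module R M] : Prop :=
  ∀ B : Submodule R M, Dv B → B = ⊥ ∨ B = ⊤

theorem apply_mem_pc {P : Ideal R} [P.IsTwoSided] (f : M →ₗ[R] C) {x : M}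
    (hx : x ∈ pc P (⊥ : Submodule R M)) : f x ∈ pc P (⊥ : Submodule R C) := by
  obtain ⟨n, hn⟩ := mem_pc.1 hx
  exact mem_pc.2 ⟨n, apply_mem_col f hn⟩

theorem exists_soc {P : Ideal R} [P.IsTwoSided] {X : Submodule R M} (hX : X ≠ ⊥)
    (h : X ≤ pc P ⊥) : ∃ y ∈ X, y ≠ 0 ∧ y ∈ col P (⊥ : Submodule R M) := by
  obtain ⟨x, hx, hx0⟩ := (Submodule.ne_bot_iff X).1 hX
  obtain ⟨n, hn⟩ := mem_pc.1 (h hx)
  induction n generalizing x with
  | zero => rw [pow_zero', col_top] at hn; exact (hx0 hn).elim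
  | succ n ih =>
    by_cases hP : x ∈ col P (⊥ : Submodule R M)
    · exact ⟨x, hx, hx0, hP⟩
    · rw [Submodule.pow_succ, col_mul, mem_col_iff] at hn
      rw [mem_col_iff, le_bot_iff] at hP
      obtain ⟨y, hy, hy0⟩ := (Submodule.ne_bot_iff _).1 hP
      exact ih y ((smul_le_right.trans ((span_singleton_le_iff_mem _ _).2 hx)) hy) hy0 (hn hy)

theorem bij_of_locnil {P : Ideal R} [P.IsTwoSided] (ψ : C →ₗ[R] C)
    (h1 : ∀ x, ψ x ∈ pc P (⊥ : Submodule R C)) (h2 : ∀ x ∈ col P (⊥ : Submodule R C), ψ x = 0) :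
    Bijective (LinearMap.id - ψ : C →ₗ[R] C) := by
  have key : ∀ n x, x ∈ col (P ^ (n + 1)) (⊥ : Submodule R C) →
      ψ x ∈ col (P ^ n) (⊥ : Submodule R C) := fun n x hx => by
    rw [Ideal.IsTwoSided.pow_succ, col_mul] at hx
    refine col_mono le_rfl ?_ (map_col_le ψ (mem_map_of_mem hx))
    rintro _ ⟨y, hy, rfl⟩
    exact h2 y hy
  refine ⟨(injective_iff_map_eq_zero _).2 fun x hx => ?_, ?_⟩
  · have hx' : x = ψ x := sub_eq_zero.1 hx
    obtain ⟨n, hn⟩ := mem_pc.1 (h1 x)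
    rw [← hx'] at hn
    induction n with
    | zero => rwa [pow_zero', col_top] at hn
    | succ n ih => exact ih (hx' ▸ key n x hn)
  · have h3 : ∀ n, col (P ^ n) ⊥ ≤ LinearMap.range (LinearMap.id - ψ : C →ₗ[R] C) := by
      intro n
      induction n with
      | zero => rw [pow_zero', col_top]; exact bot_le
      | succ n ih =>
        intro x hx
        obtain ⟨y, hy⟩ := ih (key n x hx)
        exact ⟨x + y, by rw [map_add, hy]; simp⟩
    intro x
    obtain ⟨n, hn⟩ := mem_pc.1 (h1 x)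
    obtain ⟨y, hy⟩ := h3 n hn
    exact ⟨x + y, by rw [map_add, hy]; simp⟩

variable [G : Good.{u, w} R]
include G

theorem Ind.bij (hD : Dv (⊤ : Submodule R C)) (h : Ind R C) (e : C →ₗ[R] C) :
    Bijective e ∨ Bijective (LinearMap.id - e : C →ₗ[R] C) := by
  have key : ∀ f : C →ₗ[R] C, LinearMap.ker f = ⊥ → Bijective f := fun f hf => by
    have hf' := LinearMap.ker_eq_bot.1 hf
    refine ⟨hf', fun y => ?_⟩
    rcases h _ (hD.range f) with h1 | h1
    · have : f y = 0 := (mem_bot R).1 (h1 ▸ LinearMap.mem_range_self f y)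
      exact ⟨y, by rw [this, hf' (this.trans (map_zero f).symm)]⟩
    · exact LinearMap.range_eq_top.1 h1 y
  obtain ⟨K, h1, h2, h3⟩ := hD.exists_between (X := LinearMap.ker e)
    (S := LinearMap.ker (LinearMap.id - e)) (Submodule.disjoint_def.2 fun x hx hx' => by
      simpa [LinearMap.mem_ker.1 hx] using hx')
  rcases h K h3 with rfl | rfl
  · exact Or.inl (key _ (le_bot_iff.1 h1))
  · exact Or.inr (key _ (top_disjoint.1 h2))

theorem Dv.inf_pc {B : Submodule R M} (hB : Dv B) {P : Ideal R} (hP : IsMx P) :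
    Dv (B ⊓ pc P ⊥) := by
  have := hP.1.1
  refine hP.dv_of_primary (fun y hy => ?_) inf_le_right
  obtain ⟨n, hn⟩ := mem_pc.1 hy.2
  have h1 := hP.1.lemC ((inf_le_left : B ⊓ col (P ^ n) ⊥ ≤ B).trans (hB P hP.1)) ⟨hy.1, hn⟩
  refine smul_mono le_rfl (inf_le_inf le_rfl ((col_mono le_rfl inf_le_right).trans ?_)) h1
  rw [← col_mul, ← Submodule.pow_succ]
  exact le_iSup (fun n => col (P ^ n) ⊥) (n + 1)

omit G in
theorem Dv.exists_quot_soc {Y : Submodule R M} (hY : Dv Y) (hY0 : Y ≠ ⊥) {P : Ideal R}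
    (hP : IsMx P) (h : Y ≤ pc P ⊥) : ∃ y ∈ Y.map (col P (⊥ : Submodule R M)).mkQ, y ≠ 0 ∧
      y ∈ col P (⊥ : Submodule R (M ⧸ col P (⊥ : Submodule R M))) := by
  have := hP.1.1
  refine exists_soc (fun h0 => hY0 (eq_bot_iff.2 ((hY P hP.1).trans (le_col_iff.1 ?_)))) ?_
  · intro y hy
    exact (Quotient.mk_eq_zero _).1 ((Submodule.eq_bot_iff _).1 h0 _ (mem_map_of_mem hy))
  · rintro _ ⟨y, hy, rfl⟩
    exact apply_mem_pc _ (h hy)

theorem AutLiftable.ind_quot (hM : AutLiftable R M) (hD : Dv (⊤ : Submodule R M)) (h : Ind R M)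
    (p : M →ₗ[R] C) (hp : Surjective p) (h0 : LinearMap.ker p ≠ ⊥) : Ind R C := by
  intro B hB
  by_contra hn
  obtain ⟨hB0, hB1⟩ := not_or.1 hn
  have hcl : cl (LinearMap.ker p) = ⊤ := by
    have := h _ (hD.cl (X := LinearMap.ker p))
    rw [top_inf_eq] at this
    exact this.resolve_left fun h1 => h0 (eq_bot_iff.2 (h1 ▸ le_cl))
  obtain ⟨b, hb, hb0⟩ := (Submodule.ne_bot_iff B).1 hB0
  obtain ⟨I, hI, hbI⟩ : b ∈ cl (⊥ : Submodule R C) := by
    obtain ⟨x, rfl⟩ := hp b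
    exact cl_mono (by rw [map_le_iff_le_comap]; exact le_rfl)
      (apply_mem_cl p (hcl ▸ mem_top : x ∈ cl (LinearMap.ker p)))
  obtain ⟨P, hP, y, hy, hy0, hyP⟩ := exists_mx_of_killed hI b hb0 hbI
  have := hP.1.1
  have hyY : y ∈ B ⊓ pc P ⊥ := ⟨(span_singleton_le_iff_mem _ _).2 hb hy,
    mem_pc.2 ⟨1, by rwa [Submodule.pow_one]⟩⟩
  obtain ⟨a, -, ha0, ha⟩ := (hB.inf_pc hP).exists_quot_soc
    ((Submodule.ne_bot_iff _).2 ⟨y, hyY, hy0⟩) hP inf_le_right
  obtain ⟨k, hk, a, -, hka⟩ := hP.hom_ext ((Submodule.ne_bot_iff _).2 ⟨a, ha, ha0⟩) le_rfl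
    (hB.inf_pc hP) hyY hy0 hyP
  obtain ⟨g, hg⟩ := hM.lift_of_bij_sub p hp (bij_of_locnil (P := P)
    (k ∘ₗ (col P (⊥ : Submodule R C)).mkQ) (fun x => (hk _).2) fun x hx => by
      rw [LinearMap.comp_apply, mkQ_apply, (Quotient.mk_eq_zero _).2 hx, map_zero])
  rcases h _ (hD.range g) with h1 | h1
  · obtain ⟨a, rfl⟩ := mkQ_surjective _ a
    obtain ⟨a, rfl⟩ := hp a
    have : g a = 0 := (mem_bot R).1 (h1 ▸ LinearMap.mem_range_self g a)
    exact hka (by rw [← LinearMap.comp_apply, ← hg, this, map_zero])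
  · refine hB1 (eq_top_iff.2 fun c _ => ?_)
    obtain ⟨x, rfl⟩ := hp c
    obtain ⟨x, rfl⟩ := LinearMap.range_eq_top.1 h1 x
    rw [hg]
    exact (hk _).1

theorem AutLiftable.el_of_ind (hM : AutLiftable R M) (hD : Dv (⊤ : Submodule R M))
    (h : Ind R M) : EndLiftable R M := by
  intro N e
  by_cases hN : N = ⊥
  · let k := LinearEquiv.ofBijective N.mkQ
      ⟨LinearMap.ker_eq_bot.1 (by rw [ker_mkQ, hN]), mkQ_surjective N⟩
    exact ⟨k.symm.toLinearMap ∘ₗ e ∘ₗ N.mkQ, LinearMap.ext fun x => k.apply_symm_apply _⟩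
  · have h1 := hM.ind_quot hD h N.mkQ (mkQ_surjective N) (by rwa [ker_mkQ])
    have h2 : Dv (⊤ : Submodule R (M ⧸ N)) := by rw [← range_mkQ]; exact hD.range _
    rcases h1.bij h2 e with h3 | h3
    · exact (hM.lift_of_bij _ (mkQ_surjective N) h3).imp fun f hf => LinearMap.ext hf
    · exact (hM.lift_of_bij_sub _ (mkQ_surjective N) h3).imp fun f hf => LinearMap.ext hf

theorem AutLiftable.ind_of_primary (hM : AutLiftable R M) {P : Ideal R} (hP : IsMx P)
    (hpr : ∀ x, x ∈ pc P (⊥ : Submodule R M)) : Ind R M := by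
  intro B hB
  by_contra hn
  obtain ⟨hB0, hB1⟩ := not_or.1 hn
  have := hP.1.1
  obtain ⟨A, hA⟩ := hB.isCompl
  obtain ⟨a, ha, ha0, haP⟩ := exists_soc (P := P) (X := A)
    (fun h => hB1 (eq_top_of_isCompl_bot (h ▸ hA))) fun x _ => hpr x
  obtain ⟨y, hy, hy0, hyP⟩ := hB.exists_quot_soc hB0 hP fun x _ => hpr x
  obtain ⟨k, hk, _, ⟨s, hs, rfl⟩, hks⟩ := hP.hom_ext
    (A := (col P (⊥ : Submodule R M)).map B.mkQ) ((Submodule.ne_bot_iff _).2
      ⟨_, mem_map_of_mem haP, fun h => ha0 (Submodule.disjoint_def.1 hA.disjoint a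
        ((Quotient.mk_eq_zero B).1 h) ha)⟩)
    (by rintro _ ⟨x, hx, rfl⟩; exact apply_mem_col _ hx) (hB.map _) hy hy0 hyP
  obtain ⟨g, hg⟩ := hM.sq B ((col P (⊥ : Submodule R M)).mkQ ∘ₗ B.subtype) (k ∘ₗ B.mkQ)
    (fun x hx => by rw [LinearMap.comp_apply, mkQ_apply, (Quotient.mk_eq_zero _).2 hx, map_zero])
    fun x => by
      obtain ⟨b, hb, hb'⟩ := hk (B.mkQ x)
      exact ⟨⟨b, hb⟩, hb'⟩
  exact hks ((hg s).symm.trans
    ((Quotient.mk_eq_zero _).2 (apply_mem_col (B.subtype ∘ₗ g) hs)))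

theorem AutLiftable.bounded_of_primary (hM : AutLiftable R M) {P : Ideal R} (hP : IsMx P)
    (hpr : ∀ x, x ∈ pc P (⊥ : Submodule R M)) {n : ℕ}
    (hn : ¬ col (P ^ n) ⊥ ≤ P • (⊤ : Submodule R M)) : col (P ^ n) (⊥ : Submodule R M) = ⊤ := by
  have := hP.1.1
  set W := col (P ^ n) (⊥ : Submodule R M) with hW
  set N : Submodule R M := P • ⊤ with hN
  have hkill : ∀ a ∈ P, ∀ x : M ⧸ N, a • x = 0 := fun a ha x => by
    obtain ⟨x, rfl⟩ := mkQ_surjective N x
    rw [← map_smul]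
    exact (Quotient.mk_eq_zero N).2 (smul_mem_smul ha mem_top)
  have := hP.ss hkill
  obtain ⟨V, hV⟩ := exists_isCompl (W.map N.mkQ)
  by_cases hVW : V.comap N.mkQ ≤ W
  · refine eq_top_iff.2 fun x _ => ?_
    obtain ⟨_, ⟨y, hy, rfl⟩, z, hz, hyz⟩ := mem_sup.1 (hV.sup_eq_top ▸ mem_top : N.mkQ x ∈ _)
    have : x - y ∈ W := hVW (by rw [mem_comap, map_sub, ← hyz, add_sub_cancel_left]; exact hz)
    simpa using add_mem this hy
  exfalso
  obtain ⟨x, hxV, hxW⟩ := SetLike.not_le_iff_exists.1 hVW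
  let K := span R {x}
  let L := W ⊓ K ⊔ P • K
  have hb0 : L.mkQ x ≠ 0 := fun h => by
    obtain ⟨m, hm⟩ := mem_pc.1 (hpr x)
    have h1 : K ≤ L := (span_singleton_le_iff_mem _ _).2 ((Quotient.mk_eq_zero L).1 h)
    exact hxW (nak h1 (le_bot_iff.1 (mem_col_iff.1 hm)) (mem_span_singleton_self x)).1
  have hbP : L.mkQ x ∈ col P ⊥ := mem_col.2 fun a ha => by
    rw [← map_smul]
    exact (Quotient.mk_eq_zero L).2 (mem_sup_right (smul_mem_smul ha (mem_span_singleton_self x)))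
  have h1 : ¬ (⊤ : Submodule R (W.map N.mkQ)) ≤ P • ⊤ := fun h => hn fun y hy => by
    have h2 : P • W.map N.mkQ ≤ ⊥ := smul_le.2 fun a ha z _ => hkill a ha z
    exact (Quotient.mk_eq_zero N).1 (h2 (top_le_smul_iff.1 h (mem_map_of_mem hy)))
  obtain ⟨f, hf, hf'⟩ := hP.exists_hom h1 hb0 hbP
  obtain ⟨g, hg⟩ := hM.sq K (L.mkQ ∘ₗ K.subtype) (f ∘ₗ projectionOnto _ V hV ∘ₗ N.mkQ)
    (fun y hy => by
      have : N.mkQ y ∈ V := (span_singleton_le_iff_mem _ _).2 hxV hy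
      simp only [LinearMap.comp_apply, (projectionOnto_apply_eq_zero_iff hV).2 this, map_zero])
    fun y => (span_singleton_le_iff_mem _ _).2
      (show L.mkQ x ∈ LinearMap.range (L.mkQ ∘ₗ K.subtype) from
        ⟨⟨x, mem_span_singleton_self x⟩, rfl⟩) (hf' _)
  obtain ⟨⟨_, y, hy, rfl⟩, hfy⟩ := DFunLike.ne_iff.1 hf
  refine hfy ?_
  have h3 := hg y
  simp only [LinearMap.comp_apply, projectionOnto_apply_of_mem_left hV (mem_map_of_mem hy)] at h3
  rw [← h3]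
  exact (Quotient.mk_eq_zero L).2
    (mem_sup_left ⟨apply_mem_col (K.subtype ∘ₗ g) hy, (g y).2⟩)

theorem IsMx.el_of_bounded {P : Ideal R} (hP : IsMx P) {n : ℕ}
    (h1 : P ^ (n + 1) • (⊤ : Submodule R M) = ⊥) (h2 : col (P ^ n) ⊥ ≤ P • (⊤ : Submodule R M)) :
    EndLiftable R M := by
  have := hP.1.1
  let p : (M →₀ R) →ₗ[R] M := Finsupp.linearCombination R id
  have hp : Surjective p := Finsupp.linearCombination_id_surjective R M
  let N : Submodule R (M →₀ R) := P ^ (n + 1) • ⊤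
  have hN : ∀ k : (M →₀ R) →ₗ[R] M, N ≤ LinearMap.ker k := fun k => by
    rw [← comap_bot, ← map_le_iff_le_comap, map_smul'', ← h1]
    exact smul_mono le_rfl le_top
  let p' := N.liftQ p (hN p)
  obtain ⟨K, hK⟩ := hP.exists_isCompl (X := LinearMap.ker p') (n := n) (by
    rw [← range_mkQ, LinearMap.range_eq_map, ← map_smul'', mkQ_map_self]) (by
    rintro x ⟨hx, hxP⟩
    obtain ⟨x, rfl⟩ := mkQ_surjective N x
    have h3 : x ∈ P ^ n • (⊤ : Submodule R (M →₀ R)) := by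
      have h4 := hP.1.cancel (P ^ n • (⊤ : Submodule R (M →₀ R))) ⊥
      rw [tf_of_projective.col_bot hP.1, sup_bot_eq, sup_bot_eq, ← pow_succ_smul'] at h4
      refine h4 ?_
      have h5 : x ∈ (col P ⊥).comap N.mkQ := hxP
      rwa [comap_col, comap_bot, ker_mkQ] at h5
    have h6 : col (P ^ n) (LinearMap.ker p) ≤ P • ⊤ ⊔ LinearMap.ker p := by
      rw [← comap_map_eq, map_smul'', Submodule.map_top, LinearMap.range_eq_top.2 hp,
        ← comap_bot, ← comap_col]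
      exact comap_mono h2
    have h7 := (hP.1.pow n).lemC (inf_le_right : LinearMap.ker p ⊓ _ ≤ P ^ n • ⊤) ⟨hx, h3⟩
    have h8 := smul_mono le_rfl (inf_le_right.trans ((col_mono le_rfl inf_le_left).trans h6)) h7
    rw [smul_sup, ← pow_succ_smul] at h8
    have h9 := mem_map_of_mem (f := N.mkQ) h8
    rw [Submodule.map_sup, mkQ_map_self, bot_sup_eq, map_smul''] at h9
    refine smul_mono le_rfl ?_ h9
    rintro _ ⟨y, hy, rfl⟩
    exact hy)
  let k := LinearEquiv.ofBijective (p' ∘ₗ K.subtype)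
    ⟨(injective_iff_map_eq_zero _).2 fun x hx =>
      Subtype.ext (Submodule.disjoint_def.1 hK.disjoint _ hx x.2), fun y => by
      obtain ⟨x, rfl⟩ := hp y
      obtain ⟨a, ha, b, hb, hab⟩ := mem_sup.1 (hK.sup_eq_top ▸ mem_top : N.mkQ x ∈ _)
      refine ⟨⟨b, hb⟩, ?_⟩
      have := congrArg p' hab
      rwa [map_add, LinearMap.mem_ker.1 ha, zero_add] at this⟩
  intro L e
  obtain ⟨g, hg⟩ := Module.projective_lifting_property L.mkQ (e ∘ₗ L.mkQ ∘ₗ p) (mkQ_surjective L)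
  have hg' : ∀ y, L.mkQ (N.liftQ g (hN g) y) = e (L.mkQ (p' y)) := fun y => by
    obtain ⟨y, rfl⟩ := mkQ_surjective N y
    exact DFunLike.congr_fun hg y
  refine ⟨N.liftQ g (hN g) ∘ₗ K.subtype ∘ₗ k.symm.toLinearMap, LinearMap.ext fun x => ?_⟩
  exact (hg' _).trans (congrArg (fun z => e (L.mkQ z)) (k.apply_symm_apply x))

theorem AutLiftable.el_of_primary (hM : AutLiftable R M) {P : Ideal R} (hP : IsMx P)
    (hpr : ∀ x, x ∈ pc P (⊥ : Submodule R M)) : EndLiftable R M := by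
  classical
  have := hP.1.1
  by_cases hD : (⊤ : Submodule R M) ≤ P • ⊤
  · exact hM.el_of_ind (hP.dv_of_primary hD fun x _ => hpr x) (hM.ind_of_primary hP hpr)
  have hex : ∃ n, ¬ col (P ^ n) ⊥ ≤ P • (⊤ : Submodule R M) := by
    by_contra hn
    push Not at hn
    exact hD fun x _ => (mem_pc.1 (hpr x)).elim fun n hx => hn n hx
  have h1 := hM.bounded_of_primary hP hpr (Nat.find_spec hex)
  rcases h : Nat.find hex with _ | n
  · have := Nat.find_spec hex
    rw [h, pow_zero', col_top] at this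
    exact (this bot_le).elim
  · rw [h, eq_top_iff, le_col_iff, le_bot_iff] at h1
    exact hP.el_of_bounded h1 (not_not.1 (Nat.find_min hex (by omega)))

end Pool.Agent.MP_181731_al
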