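import Pool.Agent.MP_181731_al.Prim

namespace Pool.Agent.MP_181731_al

open Function Submodule

universe u v w

variable {R : Type u} [Ring R]
variable {M : Type*} [AddCommGroup M] [Module R M] {C : Type*} [AddCommGroup C] [Module R C]
variable [G : Good.{u, w} R]
include G

/-- elements killed by an ideal comaximal with `P` -/
def oc (P : Ideal R) [P.IsTwoSided] (M : Type*) [AddCommGroup M] [Module R M] :
    Submodule R M where
  carrier := {m | ∃ J, NZ J ∧ P ⊔ J = ⊤ ∧ m ∈ col J ⊥}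
  add_mem' := fun ⟨I, hI, hI', hx⟩ ⟨J, hJ, hJ', hy⟩ => ⟨I * J, hI.mul hJ,
    (Ideal.sup_mul_eq_of_coprime_left hI').trans hJ',
    have := hI.1
    add_mem (col_mono Ideal.mul_le_left le_rfl hx) (col_mono Ideal.mul_le_right le_rfl hy)⟩
  zero_mem' := ⟨⊤, nz_top, sup_top_eq _, zero_mem _⟩
  smul_mem' := fun r _ ⟨I, hI, hI', hx⟩ => ⟨I, hI, hI', Submodule.smul_mem _ r hx⟩

theorem disjoint_pc_oc (P : Ideal R) [P.IsTwoSided] : Disjoint (pc P ⊥) (oc P M) := by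
  refine Submodule.disjoint_def.2 fun x hx ⟨J, hJ, hJ', hxJ⟩ => ?_
  have := hJ.1
  obtain ⟨n, hn⟩ := mem_pc.1 hx
  have h1 : P ^ n ⊔ J = ⊤ := Ideal.pow_sup_eq_top hJ'
  obtain ⟨a, ha, b, hb, hab⟩ := mem_sup.1 (h1 ▸ mem_top : (1 : R) ∈ P ^ n ⊔ J)
  rw [← one_smul R x, ← hab, add_smul, (mem_bot R).1 (mem_col.1 hn a ha),
    (mem_bot R).1 (mem_col.1 hxJ b hb), add_zero]

theorem IsMx.cl_le {P : Ideal R} [P.IsTwoSided] (hP : IsMx P) :
    cl (⊥ : Submodule R M) ≤ pc P ⊥ ⊔ oc P M := by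
  rintro x ⟨I, hI, hx⟩
  obtain ⟨n, J, hJ, hPJ, rfl⟩ := hP.factor_pow hI
  have := hJ.1
  refine (sup_le_sup (le_iSup (fun n => col (P ^ n) ⊥) n) fun y hy => ?_)
    (split_comax (hP.1.pow n) hJ.1 (Ideal.pow_sup_eq_top hPJ) hx)
  exact ⟨J, hJ, hPJ, hy⟩

theorem cl_le_iSup_pc :
    cl (⊥ : Submodule R M) ≤ ⨆ P : {P : Ideal R // IsMx P}, pc P.1 ⊥ := by
  have := G.noeth
  have key : ∀ I : Ideal R, NZ I →
      col I (⊥ : Submodule R M) ≤ ⨆ P : {P : Ideal R // IsMx P}, pc P.1 ⊥ := by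
    intro I hI
    induction I using IsNoetherian.induction with
    | hgt I ih =>
      by_cases hI' : I = ⊤
      · rw [hI', col_top]; exact bot_le
      obtain ⟨P, hP, hIP⟩ := exists_isMx_ge hI hI'
      have := hP.1.1
      obtain ⟨n, J, hJ, hPJ, h⟩ := hP.factor_pow hI
      have := hJ.1
      have hIJ : I < J := lt_of_le_of_ne (h.le.trans Ideal.mul_le_right) fun h' =>
        hP.2.1 (by rw [← hPJ, ← h', sup_eq_left.2 hIP])
      rw [h]
      exact (split_comax (hP.1.pow n) hJ.1 (Ideal.pow_sup_eq_top hPJ)).trans (sup_le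
        (le_iSup_of_le (⟨P, hP⟩ : {P : Ideal R // IsMx P})
          (le_iSup (fun n => col (P ^ n) ⊥) n)) (ih J hIJ hJ))
  exact fun x ⟨I, hI, hx⟩ => key I hI hx

theorem iSupIndep_pc :
    iSupIndep fun P : {P : Ideal R // IsMx P} => pc P.1 (⊥ : Submodule R M) := by
  intro P
  have := P.2.1.1
  refine (disjoint_pc_oc P.1).mono_right (iSup₂_le fun P' hP' => iSup_le fun n x hx => ?_)
  have := P'.2.1.1
  exact ⟨_, P'.2.1.pow n, Ideal.sup_pow_eq_top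
    (P.2.sup_eq_top_of_ne P'.2 fun h => hP' (Subtype.ext h.symm)), hx⟩

theorem AutLiftable.el_of_torsion (hM : AutLiftable R M)
    (hT : ∀ x, x ∈ cl (⊥ : Submodule R M)) : EndLiftable R M := by
  intro N e
  have key : ∀ P : {P : Ideal R // IsMx P}, ∃ f : pc P.1 (⊥ : Submodule R M) →ₗ[R] M,
      ∀ x, N.mkQ (f x) = e (N.mkQ x) := fun ⟨P, hP⟩ => by
    have := hP.1.1
    have hc : IsCompl (pc P ⊥) (oc P M) := ⟨disjoint_pc_oc P,
      codisjoint_iff.2 (eq_top_iff.2 fun x _ => hP.cl_le (hT x))⟩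
    refine EndLiftable.piece ((hM.of_isCompl hc).el_of_primary hP fun x => ?_) _ _ fun x hx => ?_
    · obtain ⟨n, hn⟩ := mem_pc.1 x.2
      exact mem_pc.2 ⟨n, fun a ha r => Subtype.ext (hn a ha r)⟩
    · obtain ⟨y, hy⟩ := mkQ_surjective N (e (N.mkQ x))
      obtain ⟨a, ha, b, ⟨J, hJ, hJ', hb⟩, rfl⟩ := mem_sup.1 (hP.cl_le (hT y))
      have h1 : N.mkQ b = 0 := by
        refine Submodule.disjoint_def.1 (disjoint_pc_oc P) _ ?_ ⟨J, hJ, hJ', apply_mem_col _ hb⟩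
        rw [← add_sub_cancel_left a b, map_sub, hy]
        exact sub_mem (apply_mem_pc (e ∘ₗ N.mkQ) hx) (apply_mem_pc _ ha)
      exact ⟨a, ha, by rw [← hy, map_add, h1, add_zero]⟩
  choose f hf using key
  have ht : ⨆ P : {P : Ideal R // IsMx P}, pc P.1 (⊥ : Submodule R M) = ⊤ :=
    eq_top_iff.2 fun x _ => cl_le_iSup_pc (hT x)
  obtain ⟨F, hF⟩ := glue_top iSupIndep_pc ht f
  refine ⟨F, ext_of_iSup ht fun P x hx => ?_⟩
  exact (congrArg N.mkQ (hF P ⟨x, hx⟩)).trans (hf P ⟨x, hx⟩)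

end Pool.Agent.MP_181731_al
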